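import Mathlib

/-!
# A comparison principle for infinite linear systems of differential equations
-/

namespace Pool.Agent.Lib.MP_360c0a_pr

open Set Filter Topology

/-- Comparison principle on a finite time interval, nonnegative generator version. -/
theorem comparison_aux {ι : Type*} (G H : ℝ → ι → ℝ) (K T : ℝ) (hK : 0 ≤ K) (hT : 0 ≤ T)
    (hder : ∀ t, 0 ≤ t → t ≤ T → ∀ i, HasDerivWithinAt (fun s => G s i) (H t i) (Icc 0 T) t)
    (hlow : ∃ C, ∀ t, 0 ≤ t → t ≤ T → ∀ i, -C ≤ G t i)
    (hH : ∀ t, 0 ≤ t → t ≤ T → ∀ m, 0 ≤ m → (∀ i, -m ≤ G t i) → ∀ i, -(K * m) ≤ H t i)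
    (h0 : ∀ i, 0 ≤ G 0 i) : ∀ i, 0 ≤ G T i := by
  obtain ⟨C₀, hC₀⟩ := hlow
  set C := max C₀ 0 with hCdef
  have hC : 0 ≤ C := le_max_right _ _
  have hC' : ∀ t, 0 ≤ t → t ≤ T → ∀ i, -C ≤ G t i := fun t h0 h1 i =>
    le_trans (neg_le_neg (le_max_left _ _)) (hC₀ t h0 h1 i)
  have key : ∀ n : ℕ, ∀ t, 0 ≤ t → t ≤ T → ∀ i, -(C * ((K * t) ^ n / n.factorial)) ≤ G t i := by
    intro n
    induction n with
    | zero => intro t ht0 ht1 i; simpa using hC' t ht0 ht1 i
    | succ n ih =>
      intro t ht0 ht1 i
      set F : ℝ → ℝ := fun s => G s i + C * ((K * s) ^ (n + 1) / (n + 1).factorial) with hF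
      have hFder : ∀ s ∈ Icc (0 : ℝ) T, HasDerivWithinAt F
          (H s i + C * (K * ((K * s) ^ n / n.factorial))) (Icc 0 T) s := by
        intro s hs
        have h1 := hder s hs.1 hs.2 i
        have h2 : HasDerivAt (fun s : ℝ => C * ((K * s) ^ (n + 1) / (n + 1).factorial))
            (C * (K * ((K * s) ^ n / n.factorial))) s := by
          have h3 : HasDerivAt (fun s : ℝ => K * s) K s := by
            simpa using (hasDerivAt_id s).const_mul K
          have h4 := ((h3.pow (n + 1)).div_const ((n + 1).factorial : ℝ)).const_mul C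
          convert! h4 using 1
          rw [Nat.factorial_succ]
          push_cast
          have : (n.factorial : ℝ) ≠ 0 := by positivity
          have : ((n : ℝ) + 1) ≠ 0 := by positivity
          field_simp
        exact h1.add h2.hasDerivWithinAt
      have hmono : MonotoneOn F (Icc 0 T) := by
        apply monotoneOn_of_deriv_nonneg (convex_Icc _ _)
        · intro s hs
          exact (hFder s hs).continuousWithinAt
        · intro s hs
          rw [interior_Icc] at hs ⊢
          exact ((hFder s (Ioo_subset_Icc_self hs)).mono Ioo_subset_Icc_self).differentiableWithinAt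
        · intro s hs
          rw [interior_Icc] at hs
          have hd : HasDerivAt F (H s i + C * (K * ((K * s) ^ n / n.factorial))) s :=
            (hFder s (Ioo_subset_Icc_self hs)).hasDerivAt (Icc_mem_nhds hs.1 hs.2)
          rw [hd.deriv]
          have hm : (0 : ℝ) ≤ C * ((K * s) ^ n / n.factorial) := by
            have : 0 ≤ K * s := mul_nonneg hK hs.1.le
            positivity
          have := hH s hs.1.le hs.2.le _ hm (fun j => ih s hs.1.le hs.2.le j) i
          nlinarith
      have h1 : F 0 ≤ F t := hmono ⟨le_refl _, hT⟩ ⟨ht0, ht1⟩ ht0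
      have h2 : 0 ≤ F 0 := by
        simp only [hF]
        simpa using h0 i
      have h3 : 0 ≤ F t := le_trans h2 h1
      simp only [hF] at h3
      linarith
  intro i
  have hlim : Tendsto (fun n : ℕ => -(C * ((K * T) ^ n / n.factorial))) atTop (𝓝 (-(C * 0))) :=
    ((FloorSemiring.tendsto_pow_div_factorial_atTop (K * T)).const_mul C).neg
  have : -(C * 0) ≤ G T i := le_of_tendsto' hlim (fun n => key n T hT le_rfl i)
  simpa using this

/-- Comparison principle on a finite time interval. The condition `hH` says that the off-diagonal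
part of the generator is nonnegative, once a multiple `c` of the identity has been added. -/
theorem comparison_Icc {ι : Type*} (G H : ℝ → ι → ℝ) (K c T : ℝ) (hK : 0 ≤ K) (hT : 0 ≤ T)
    (hder : ∀ t, 0 ≤ t → t ≤ T → ∀ i, HasDerivWithinAt (fun s => G s i) (H t i) (Icc 0 T) t)
    (hlow : ∃ C, ∀ t, 0 ≤ t → t ≤ T → ∀ i, -C ≤ G t i)
    (hH : ∀ t, 0 ≤ t → t ≤ T → ∀ m, 0 ≤ m → (∀ i, -m ≤ G t i) →
      ∀ i, -(K * m) ≤ H t i + c * G t i)
    (h0 : ∀ i, 0 ≤ G 0 i) : ∀ i, 0 ≤ G T i := by
  have key := comparison_aux (fun t i => Real.exp (c * t) * G t i)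
    (fun t i => Real.exp (c * t) * (H t i + c * G t i)) K T hK hT ?_ ?_ ?_ ?_
  · intro i
    have := key i
    exact nonneg_of_mul_nonneg_right this (Real.exp_pos _)
  · intro t ht htT i
    have h1 : HasDerivAt (fun s : ℝ => Real.exp (c * s)) (Real.exp (c * t) * c) t := by
      have h3 : HasDerivAt (fun s : ℝ => c * s) c t := by
        simpa using (hasDerivAt_id t).const_mul c
      exact h3.exp
    have h2 := h1.hasDerivWithinAt (s := Icc 0 T) |>.mul (hder t ht htT i)
    convert! h2 using 1
    ring
  · obtain ⟨C, hC⟩ := hlow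
    refine ⟨Real.exp (|c| * T) * max C 0, fun t h0 h1 i => ?_⟩
    have h2 := hC t h0 h1 i
    have h3 : -(max C 0) ≤ G t i := le_trans (neg_le_neg (le_max_left _ _)) h2
    have h4 : Real.exp (c * t) ≤ Real.exp (|c| * T) := by
      apply Real.exp_le_exp.mpr
      calc c * t ≤ |c| * t := mul_le_mul_of_nonneg_right (le_abs_self c) h0
        _ ≤ |c| * T := mul_le_mul_of_nonneg_left h1 (abs_nonneg c)
    have h5 : 0 ≤ max C 0 := le_max_right _ _
    have h6 : 0 < Real.exp (c * t) := Real.exp_pos _
    nlinarith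
  · intro t ht htT m hm hlo i
    have hpos : 0 < Real.exp (c * t) := Real.exp_pos _
    have h1 := hH t ht htT (m / Real.exp (c * t)) (by positivity) (fun j => by
      have := hlo j
      rw [neg_le_iff_add_nonneg] at this ⊢
      have h7 : G t j + m / Real.exp (c * t) =
        (Real.exp (c * t) * G t j + m) / Real.exp (c * t) := by field_simp
      rw [h7]
      positivity) i
    have h2 := mul_le_mul_of_nonneg_left h1 hpos.le
    calc -(K * m) = Real.exp (c * t) * -(K * (m / Real.exp (c * t))) := by field_simp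
      _ ≤ _ := h2
  · intro i; simpa using h0 i

end Pool.Agent.Lib.MP_360c0a_pr
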