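import Mathlib

/-!
# The parabolic Anderson model on the integers
-/

namespace Pool.Agent.Lib.MP_360c0a_pr

/-- `u : [0, ∞) × ℤ → ℝ` is the solution of the parabolic Anderson model
`∂ₜ u(t, x) = (1/2) (u(t, x+1) + u(t, x-1) - 2 u(t, x)) + ξ(x) u(t, x)`, `u(0, ·) = u₀`,
which is bounded on `[0, T] × ℤ` for every `T`.  Only the values of `u` at nonnegative times
matter; the derivative at time `0` is the right derivative. -/
structure IsPAMSolution (ξ : ℤ → ℝ) (u₀ : ℤ → ℝ) (u : ℝ → ℤ → ℝ) : Prop where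
  /-- the initial condition -/
  init : ∀ x, u 0 x = u₀ x
  /-- the equation -/
  eqn : ∀ t, 0 ≤ t → ∀ x, HasDerivWithinAt (fun s => u s x)
    (1 / 2 * (u t (x + 1) + u t (x - 1) - 2 * u t x) + ξ x * u t x) (Set.Ici 0) t
  /-- local boundedness in time, uniformly in space -/
  bdd : ∀ T, ∃ C, ∀ t, 0 ≤ t → t ≤ T → ∀ x, |u t x| ≤ C

end Pool.Agent.Lib.MP_360c0a_pr
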