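import Mathlib
import Pool.Agent.Lib.MP_360c0a_pr.Defs

/-!
# Existence of the solution of the parabolic Anderson model for bounded initial conditions
-/

namespace Pool.Agent.Lib.MP_360c0a_pr

open Set Filter Topology BoundedContinuousFunction

/-- The orbit map of the exponential of a bounded operator. -/
noncomputable def orbit {E : Type*} [NormedAddCommGroup E] [NormedSpace ℝ E]
    (A : E →L[ℝ] E) (f : E) (t : ℝ) : E := (NormedSpace.exp (t • A)) f

theorem orbit_hasDerivAt {E : Type*} [NormedAddCommGroup E] [NormedSpace ℝ E] [CompleteSpace E]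
    (A : E →L[ℝ] E) (f : E) (t : ℝ) : HasDerivAt (orbit A f) (A (orbit A f t)) t := by
  have h1 := hasDerivAt_exp_smul_const' (𝕂 := ℝ) A t
  exact (ContinuousLinearMap.apply ℝ E f).hasFDerivAt.comp_hasDerivAt t h1

theorem orbit_zero {E : Type*} [NormedAddCommGroup E] [NormedSpace ℝ E]
    (A : E →L[ℝ] E) (f : E) : orbit A f 0 = f := by
  simp [orbit, NormedSpace.exp_zero]

theorem gen_bound (ξ : ℤ → ℝ) (B : ℝ) (hξ : ∀ x, |ξ x| ≤ B) (f : ℤ →ᵇ ℝ) (x : ℤ) :
    ‖1 / 2 * (f (x + 1) + f (x - 1) - 2 * f x) + ξ x * f x‖ ≤ (2 + B) * ‖f‖ := by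
  have h1 := f.norm_coe_le_norm (x + 1)
  have h2 := f.norm_coe_le_norm (x - 1)
  have h3 := f.norm_coe_le_norm x
  have h4 := hξ x
  rw [Real.norm_eq_abs] at h1 h2 h3 ⊢
  have h5 : |ξ x * f x| ≤ B * ‖f‖ := by
    rw [abs_mul]
    exact mul_le_mul h4 h3 (abs_nonneg _) (le_trans (abs_nonneg _) h4)
  rw [abs_le] at h1 h2 h3 h5 ⊢
  constructor <;> nlinarith

/-- The generator on the space of bounded functions on the integers. -/
noncomputable def genBdd (ξ : ℤ → ℝ) (B : ℝ) (hξ : ∀ x, |ξ x| ≤ B) :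
    (ℤ →ᵇ ℝ) →L[ℝ] (ℤ →ᵇ ℝ) :=
  LinearMap.mkContinuous
    { toFun := fun f => ofNormedAddCommGroupDiscrete
        (fun x => 1 / 2 * (f (x + 1) + f (x - 1) - 2 * f x) + ξ x * f x) ((2 + B) * ‖f‖)
        (gen_bound ξ B hξ f)
      map_add' := fun f g => by
        ext x
        show 1 / 2 * ((f (x + 1) + g (x + 1)) + (f (x - 1) + g (x - 1)) - 2 * (f x + g x))
            + ξ x * (f x + g x)
          = (1 / 2 * (f (x + 1) + f (x - 1) - 2 * f x) + ξ x * f x)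
            + (1 / 2 * (g (x + 1) + g (x - 1) - 2 * g x) + ξ x * g x)
        ring
      map_smul' := fun c f => by
        ext x
        show 1 / 2 * (c * f (x + 1) + c * f (x - 1) - 2 * (c * f x)) + ξ x * (c * f x)
          = c * (1 / 2 * (f (x + 1) + f (x - 1) - 2 * f x) + ξ x * f x)
        ring } (2 + B) (by
    intro f
    have hB : 0 ≤ B := le_trans (abs_nonneg _) (hξ 0)
    refine (norm_le (by positivity)).mpr (fun x => ?_)
    show ‖1 / 2 * (f (x + 1) + f (x - 1) - 2 * f x) + ξ x * f x‖ ≤ (2 + B) * ‖f‖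
    exact gen_bound ξ B hξ f x)

theorem genBdd_apply (ξ : ℤ → ℝ) (B : ℝ) (hξ : ∀ x, |ξ x| ≤ B) (f : ℤ →ᵇ ℝ) (x : ℤ) :
    genBdd ξ B hξ f x = 1 / 2 * (f (x + 1) + f (x - 1) - 2 * f x) + ξ x * f x := rfl

/-- Existence of the solution for a bounded potential and a bounded initial condition. -/
theorem exists_isPAMSolution (ξ : ℤ → ℝ) (B : ℝ) (hξ : ∀ x, |ξ x| ≤ B) (u₀ : ℤ → ℝ) (C : ℝ)
    (hu₀ : ∀ x, |u₀ x| ≤ C) : ∃ u, IsPAMSolution ξ u₀ u := by
  set A := genBdd ξ B hξ with hA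
  set f : ℤ →ᵇ ℝ := ofNormedAddCommGroupDiscrete u₀ C hu₀ with hf
  have hder := orbit_hasDerivAt A f
  refine ⟨fun t x => (orbit A f t) x, ?_, ?_, ?_⟩
  · intro x
    simp [orbit_zero, hf]
  · intro t _ x
    have h2 := (evalCLM ℝ x : (ℤ →ᵇ ℝ) →L[ℝ] ℝ).hasFDerivAt.comp_hasDerivAt t (hder t)
    have h3 := genBdd_apply ξ B hξ (orbit A f t) x
    rw [← h3]
    exact h2.hasDerivWithinAt
  · intro T
    have hcont : ContinuousOn (fun t : ℝ => ‖orbit A f t‖) (Icc 0 T) := by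
      intro t _
      exact (hder t).continuousAt.norm.continuousWithinAt
    obtain ⟨C', hC'⟩ := (isCompact_Icc.image_of_continuousOn hcont).bddAbove
    refine ⟨C', fun t h0 h1 x => ?_⟩
    calc |(orbit A f t) x| ≤ ‖orbit A f t‖ := (orbit A f t).norm_coe_le_norm x
      _ ≤ C' := hC' ⟨t, ⟨h0, h1⟩, rfl⟩

end Pool.Agent.Lib.MP_360c0a_pr
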