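import Mathlib

/-!
# Jacobi operators on the space of square summable sequences indexed by the integers
-/

namespace Pool.Agent.Lib.MP_360c0a_pr

open Set Filter Topology

open scoped ENNReal

/-- The Hilbert space of square summable real sequences on the integers. -/
abbrev L2 : Type := lp (fun _ : ℤ => ℝ) 2

theorem two_toReal : (2 : ℝ≥0∞).toReal = 2 := by norm_num

theorem norm_sq_eq (f : L2) : ‖f‖ ^ (2 : ℝ) = ∑' i, ‖f i‖ ^ (2 : ℝ) := by
  have := lp.norm_rpow_eq_tsum (p := 2) (by norm_num) f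
  simpa [two_toReal] using this

theorem memL2_shift (k : ℤ) (f : L2) : Memℓp (fun i : ℤ => f (i + k)) 2 := by
  apply memℓp_gen
  have h := (lp.memℓp f).summable (by norm_num)
  exact (Equiv.addRight k).summable_iff.mpr h

/-- Shift operator on `L2`. -/
noncomputable def shiftOp (k : ℤ) : L2 →L[ℝ] L2 :=
  LinearMap.mkContinuous
    { toFun := fun f => ⟨fun i => f (i + k), memL2_shift k f⟩
      map_add' := fun f g => by ext i; rfl
      map_smul' := fun c f => by ext i; rfl } 1 (by
    intro f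
    rw [one_mul]
    apply lp.norm_le_of_tsum_le (by norm_num) (norm_nonneg _)
    simp only [two_toReal]
    rw [norm_sq_eq]
    exact le_of_eq ((Equiv.addRight k).tsum_eq (fun i => ‖f i‖ ^ (2 : ℝ))))

@[simp] theorem shiftOp_apply (k : ℤ) (f : L2) (i : ℤ) : (shiftOp k f) i = f (i + k) := rfl

theorem memL2_mul (c : ℤ → ℝ) (C : ℝ) (hc : ∀ i, |c i| ≤ C) (f : L2) :
    Memℓp (fun i : ℤ => c i * f i) 2 := by
  have hC : 0 ≤ C := le_trans (abs_nonneg _) (hc 0)
  have h : Memℓp (fun i : ℤ => C * f i) 2 := (lp.memℓp f).const_mul C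
  refine Memℓp.mono' h (fun i => ?_)
  rw [Real.norm_eq_abs, abs_mul, Real.norm_eq_abs, abs_mul, abs_of_nonneg hC]
  exact mul_le_mul_of_nonneg_right (hc i) (abs_nonneg _)

/-- Multiplication operator on `L2` by a bounded function. -/
noncomputable def mulOp (c : ℤ → ℝ) (C : ℝ) (hc : ∀ i, |c i| ≤ C) : L2 →L[ℝ] L2 :=
  LinearMap.mkContinuous
    { toFun := fun f => ⟨fun i => c i * f i, memL2_mul c C hc f⟩
      map_add' := fun f g => by
        ext i
        show c i * (f i + g i) = c i * f i + c i * g i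
        ring
      map_smul' := fun a f => by
        ext i
        show c i * (a * f i) = a * (c i * f i)
        ring } C (by
    intro f
    have hC : 0 ≤ C := le_trans (abs_nonneg _) (hc 0)
    have : C * ‖f‖ = ‖C • f‖ := by rw [norm_smul, Real.norm_of_nonneg hC]
    rw [this]
    apply lp.norm_mono (by norm_num)
    intro i
    show |c i * f i| ≤ |C * f i|
    rw [abs_mul, abs_mul, abs_of_nonneg hC]
    exact mul_le_mul_of_nonneg_right (hc i) (abs_nonneg _))

@[simp] theorem mulOp_apply (c : ℤ → ℝ) (C : ℝ) (hc : ∀ i, |c i| ≤ C) (f : L2) (i : ℤ) :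
    (mulOp c C hc f) i = c i * f i := rfl

/-- The data of a bounded Jacobi operator on the integers, with nonnegative hopping rates `J`
(between `i` and `i + 1`) and potential `V`. -/
structure JacData where
  /-- hopping rates -/
  J : ℤ → ℝ
  /-- potential -/
  V : ℤ → ℝ
  /-- bound -/
  C : ℝ
  J_nonneg : ∀ i, 0 ≤ J i
  J_le : ∀ i, J i ≤ C
  V_le : ∀ i, |V i| ≤ C

namespace JacData

variable (D : JacData)

theorem absJ_le (i : ℤ) : |D.J i| ≤ D.C := by
  rw [abs_of_nonneg (D.J_nonneg i)]; exact D.J_le i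

theorem C_nonneg : 0 ≤ D.C := le_trans (D.J_nonneg 0) (D.J_le 0)

/-- The action of the operator on arbitrary functions. -/
def act (f : ℤ → ℝ) (i : ℤ) : ℝ := D.J i * f (i + 1) + D.J (i - 1) * f (i - 1) + D.V i * f i

/-- The operator on `L2`. -/
noncomputable def op : L2 →L[ℝ] L2 :=
  (mulOp D.J D.C D.absJ_le).comp (shiftOp 1) + (shiftOp (-1)).comp (mulOp D.J D.C D.absJ_le)
    + mulOp D.V D.C D.V_le

theorem op_apply (f : L2) (i : ℤ) : (D.op f) i = D.act f i := by
  simp only [op, act, _root_.add_apply, ContinuousLinearMap.comp_apply, lp.coeFn_add,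
    Pi.add_apply, shiftOp_apply, mulOp_apply]
  rfl

theorem inner_eq (f g : L2) : inner ℝ f g = ∑' i, f i * g i := by
  rw [lp.inner_eq_tsum]
  congr 1
  ext i
  simp [mul_comm]

theorem summable_mul (f g : L2) : Summable (fun i => f i * g i) := by
  have := lp.summable_inner (𝕜 := ℝ) f g
  refine this.congr (fun i => ?_)
  simp [mul_comm]

theorem inner_shift (f g : L2) : inner ℝ (shiftOp 1 f) g = inner ℝ f (shiftOp (-1) g) := by
  rw [inner_eq, inner_eq]
  rw [← (Equiv.addRight (1 : ℤ)).tsum_eq (fun i => f i * (shiftOp (-1) g) i)]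
  congr 1
  ext i
  simp

theorem inner_shift' (f g : L2) : inner ℝ (shiftOp (-1) f) g = inner ℝ f (shiftOp 1 g) := by
  rw [real_inner_comm, ← inner_shift, real_inner_comm]

theorem inner_mulOp (c : ℤ → ℝ) (C : ℝ) (hc : ∀ i, |c i| ≤ C) (f g : L2) :
    inner ℝ (mulOp c C hc f) g = inner ℝ f (mulOp c C hc g) := by
  rw [inner_eq, inner_eq]
  congr 1
  ext i
  simp only [mulOp_apply]
  ring

theorem op_symm (f g : L2) : inner ℝ (D.op f) g = inner ℝ f (D.op g) := by
  simp only [op, _root_.add_apply, ContinuousLinearMap.comp_apply, inner_add_left,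
    inner_add_right, inner_mulOp, inner_shift, inner_shift']
  ring

/-- The semigroup generated by the operator. -/
noncomputable def sg (t : ℝ) : L2 →L[ℝ] L2 := NormedSpace.exp (t • D.op)

theorem sg_zero : D.sg 0 = 1 := by
  simp [sg, NormedSpace.exp_zero]

theorem sg_add (s t : ℝ) : D.sg (s + t) = D.sg s * D.sg t := by
  unfold sg
  rw [add_smul]
  let _ : NormedAlgebra ℚ (L2 →L[ℝ] L2) := NormedAlgebra.restrictScalars ℚ ℝ (L2 →L[ℝ] L2)
  apply NormedSpace.exp_add_of_commute
  exact ((Commute.refl D.op).smul_left s).smul_right t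

theorem sg_hasDerivAt (t : ℝ) : HasDerivAt D.sg (D.op * D.sg t) t := by
  have := hasDerivAt_exp_smul_const' (𝕂 := ℝ) D.op t
  exact this

theorem sg_apply_hasDerivAt (f : L2) (t : ℝ) :
    HasDerivAt (fun s => D.sg s f) (D.op (D.sg t f)) t := by
  have h := D.sg_hasDerivAt t
  have h2 := (ContinuousLinearMap.apply ℝ L2 f).hasFDerivAt.comp_hasDerivAt t h
  exact h2

theorem sg_comm (t : ℝ) (f : L2) : D.sg t (D.op f) = D.op (D.sg t f) := by
  have : Commute D.op (D.sg t) := ((Commute.refl D.op).smul_right t).exp_right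
  have h := congrArg (fun T : L2 →L[ℝ] L2 => T f) this.eq
  exact h.symm

theorem sg_symm (t : ℝ) (f g : L2) : inner ℝ (D.sg t f) g = inner ℝ f (D.sg t g) := by
  -- both sides are derivatives-constant along the interpolation
  have key : ∀ s : ℝ, HasDerivAt (fun s => inner ℝ (D.sg s f) (D.sg (t - s) g)) 0 s := by
    intro s
    have h1 := D.sg_apply_hasDerivAt f s
    have h2 : HasDerivAt (fun s => D.sg (t - s) g) (-(D.op (D.sg (t - s) g))) s := by
      have := (D.sg_apply_hasDerivAt g (t - s)).scomp s ((hasDerivAt_id s).const_sub t)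
      convert! this using 1
      simp
    have h3 := h1.inner ℝ h2
    convert! h3 using 1
    rw [inner_neg_right, D.op_symm]
    ring
  have hdiff : Differentiable ℝ (fun s => inner ℝ (D.sg s f) (D.sg (t - s) g) : ℝ → ℝ) :=
    fun s => (key s).differentiableAt
  have := is_const_of_deriv_eq_zero hdiff (fun s => (key s).deriv) t 0
  simpa [sg_zero] using this

/-- Point evaluation as a continuous functional. -/
noncomputable def evalCLM (i : ℤ) : L2 →L[ℝ] ℝ :=
  LinearMap.mkContinuous
    { toFun := fun f => f i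
      map_add' := fun f g => rfl
      map_smul' := fun a f => rfl } 1 (by
    intro f
    rw [one_mul]
    exact lp.norm_apply_le_norm (by norm_num) f i)

@[simp] theorem evalCLM_apply (i : ℤ) (f : L2) : evalCLM i f = f i := rfl

theorem sg_eval_hasDerivAt (f : L2) (i : ℤ) (t : ℝ) :
    HasDerivAt (fun s => (D.sg s f) i) (D.act (D.sg t f) i) t := by
  have h := (evalCLM i).hasFDerivAt.comp_hasDerivAt t (D.sg_apply_hasDerivAt f t)
  rw [← D.op_apply]
  exact h

theorem sg_bdd (f : L2) (T : ℝ) : ∃ C, ∀ t, 0 ≤ t → t ≤ T → ∀ i, |(D.sg t f) i| ≤ C := by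
  have hcont : ContinuousOn (fun t => ‖D.sg t f‖) (Icc 0 T) := by
    intro t _
    exact (D.sg_apply_hasDerivAt f t).continuousAt.norm.continuousWithinAt
  obtain ⟨C, hC⟩ := (isCompact_Icc.image_of_continuousOn hcont).bddAbove
  refine ⟨C, fun t h0 h1 i => ?_⟩
  calc |(D.sg t f) i| ≤ ‖D.sg t f‖ := lp.norm_apply_le_norm (p := 2) (by norm_num) (D.sg t f) i
    _ ≤ C := hC ⟨t, ⟨h0, h1⟩, rfl⟩

/-- The unit vector. -/
noncomputable def e (x : ℤ) : L2 := lp.single 2 x (1 : ℝ)

theorem e_apply (x i : ℤ) : e x i = if i = x then 1 else 0 := by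
  rw [e, lp.single_apply, Pi.single_apply]

theorem inner_e_left (x : ℤ) (f : L2) : inner ℝ (e x) f = f x := by
  rw [e, lp.inner_single_left]
  simp

end JacData

end Pool.Agent.Lib.MP_360c0a_pr
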