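import Mathlib
import Pool.Agent.Lib.MP_360c0a_pr.Comparison
import Pool.Agent.Lib.MP_360c0a_pr.Operators

/-!
# Positivity of the semigroup of a Jacobi operator
-/

namespace Pool.Agent.Lib.MP_360c0a_pr

open Set Filter Topology

namespace JacData

variable (D : JacData)

theorem act_add_lower {f : ℤ → ℝ} {m : ℝ} (hm : 0 ≤ m) {i : ℤ} (h1 : -m ≤ f (i + 1))
    (h2 : -m ≤ f (i - 1)) (h3 : -m ≤ f i) : -(4 * D.C * m) ≤ D.act f i + D.C * f i := by
  have hJ1 := D.J_nonneg i
  have hJ2 := D.J_nonneg (i - 1)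
  have hJ3 := D.J_le i
  have hJ4 := D.J_le (i - 1)
  have hV := abs_le.mp (D.V_le i)
  have a1 : -(D.C * m) ≤ D.J i * f (i + 1) := by nlinarith
  have a2 : -(D.C * m) ≤ D.J (i - 1) * f (i - 1) := by nlinarith
  have a3 : -(2 * D.C * m) ≤ (D.V i + D.C) * f i := by nlinarith
  have : D.act f i + D.C * f i = D.J i * f (i + 1) + D.J (i - 1) * f (i - 1)
    + (D.V i + D.C) * f i := by unfold act; ring
  rw [this]
  linarith

/-- Comparison for the full line with a nonnegative source, on a finite time interval. -/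
theorem nonneg_of_source (G S : ℝ → ℤ → ℝ) (T : ℝ) (hT : 0 ≤ T)
    (hder : ∀ t, 0 ≤ t → t ≤ T → ∀ i,
      HasDerivWithinAt (fun s => G s i) (D.act (G t) i + S t i) (Icc 0 T) t)
    (hlow : ∃ C, ∀ t, 0 ≤ t → t ≤ T → ∀ i, -C ≤ G t i)
    (hS : ∀ t, 0 ≤ t → t ≤ T → ∀ i, 0 ≤ S t i)
    (h0 : ∀ i, 0 ≤ G 0 i) : ∀ i, 0 ≤ G T i := by
  refine comparison_Icc G (fun t i => D.act (G t) i + S t i) (4 * D.C) D.C T
    (by have := D.C_nonneg; positivity) hT hder hlow ?_ h0
  intro t h0 h1 m hm hlo i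
  have := D.act_add_lower hm (hlo (i + 1)) (hlo (i - 1)) (hlo i)
  have := hS t h0 h1 i
  linarith

/-- Comparison for the half line `y ≤ b` with a nonnegative source, when the edge
`(b, b + 1)` is absent. -/
theorem nonneg_of_source_left (b : ℤ) (hb : D.J b = 0) (G S : ℝ → ℤ → ℝ) (T : ℝ) (hT : 0 ≤ T)
    (hder : ∀ t, 0 ≤ t → t ≤ T → ∀ i, i ≤ b →
      HasDerivWithinAt (fun s => G s i) (D.act (G t) i + S t i) (Icc 0 T) t)
    (hlow : ∃ C, ∀ t, 0 ≤ t → t ≤ T → ∀ i, i ≤ b → -C ≤ G t i)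
    (hS : ∀ t, 0 ≤ t → t ≤ T → ∀ i, i ≤ b → 0 ≤ S t i)
    (h0 : ∀ i, i ≤ b → 0 ≤ G 0 i) : ∀ i, i ≤ b → 0 ≤ G T i := by
  intro i hi
  have key := comparison_Icc (ι := {i : ℤ // i ≤ b}) (fun t i => G t i)
    (fun t i => D.act (G t) i + S t i) (4 * D.C) D.C T
    (by have := D.C_nonneg; positivity) hT (fun t h0 h1 i => hder t h0 h1 i i.2) ?_ ?_ ?_
  · exact key ⟨i, hi⟩
  · obtain ⟨C, hC⟩ := hlow
    exact ⟨C, fun t h0 h1 i => hC t h0 h1 i i.2⟩
  · intro t h0 h1 m hm hlo i
    have hs := hS t h0 h1 i i.2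
    rcases lt_or_eq_of_le i.2 with hlt | heq
    · have := D.act_add_lower (f := G t) hm (i := i) (hlo ⟨i + 1, by omega⟩)
        (hlo ⟨i - 1, by omega⟩) (hlo i)
      linarith
    · -- at the boundary the value at `b + 1` does not matter
      have h2 := D.act_add_lower (f := fun j => if j ≤ b then G t j else 0) hm (i := i)
        (by rw [if_neg (by omega)]; linarith) (by rw [if_pos (by omega)]; exact hlo ⟨i - 1, by omega⟩)
        (by rw [if_pos (by omega)]; exact hlo i)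
      have h3 : D.act (fun j => if j ≤ b then G t j else 0) i = D.act (G t) i := by
        simp only [act]
        rw [if_pos (show (i : ℤ) - 1 ≤ b by omega), if_pos (show (i : ℤ) ≤ b by omega), heq, hb]
        ring
      rw [h3, if_pos (by omega)] at h2
      linarith
  · intro i; exact h0 i i.2

theorem sg_nonneg {f : L2} (hf : ∀ i, 0 ≤ f i) {t : ℝ} (ht : 0 ≤ t) (i : ℤ) :
    0 ≤ (D.sg t f) i := by
  refine D.nonneg_of_source (fun t i => (D.sg t f) i) (fun _ _ => 0) t ht ?_ ?_ ?_ ?_ i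
  · intro s _ _ j
    have := (D.sg_eval_hasDerivAt f j s).hasDerivWithinAt (s := Icc 0 t)
    simpa using this
  · obtain ⟨C, hC⟩ := D.sg_bdd f t
    exact ⟨C, fun s h0 h1 j => (abs_le.mp (hC s h0 h1 j)).1⟩
  · intros; exact le_rfl
  · intro j; simpa [sg_zero] using hf j

/-- If the edge `(b, b+1)` is absent and the initial condition vanishes on `y ≤ b`, then the
solution vanishes on `y ≤ b`. -/
theorem sg_eq_zero_left (b : ℤ) (hb : D.J b = 0) {f : L2} (hf : ∀ i, i ≤ b → f i = 0) {t : ℝ}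
    (ht : 0 ≤ t) (i : ℤ) (hi : i ≤ b) : (D.sg t f) i = 0 := by
  have h1 : 0 ≤ (D.sg t f) i := by
    refine D.nonneg_of_source_left b hb (fun t i => (D.sg t f) i) (fun _ _ => 0) t ht ?_ ?_ ?_ ?_
      i hi
    · intro s _ _ j _
      have := (D.sg_eval_hasDerivAt f j s).hasDerivWithinAt (s := Icc 0 t)
      simpa using this
    · obtain ⟨C, hC⟩ := D.sg_bdd f t
      exact ⟨C, fun s h0 h1 j _ => (abs_le.mp (hC s h0 h1 j)).1⟩
    · intros; exact le_rfl
    · intro j hj
      simp [sg_zero, hf j hj]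
  have h2 : 0 ≤ -(D.sg t f) i := by
    refine D.nonneg_of_source_left b hb (fun t i => -(D.sg t f) i) (fun _ _ => 0) t ht ?_ ?_ ?_ ?_
      i hi
    · intro s _ _ j _
      have := (D.sg_eval_hasDerivAt f j s).neg.hasDerivWithinAt (s := Icc 0 t)
      convert! this using 1
      unfold act
      ring
    · obtain ⟨C, hC⟩ := D.sg_bdd f t
      refine ⟨C, fun s h0 h1 j _ => ?_⟩
      have := (abs_le.mp (hC s h0 h1 j)).2
      show -C ≤ -(D.sg s f) j
      linarith
    · intros; exact le_rfl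
    · intro j hj
      simp [sg_zero, hf j hj]
  linarith

theorem e_nonneg (x i : ℤ) : 0 ≤ e x i := by
  rw [e_apply]; split_ifs <;> norm_num

/-- The return function. -/
noncomputable def ret (x : ℤ) (t : ℝ) : ℝ := (D.sg t (e x)) x

/-- The derivative of the return function. -/
noncomputable def ret' (x : ℤ) (t : ℝ) : ℝ := (D.op (D.sg t (e x))) x

theorem ret_hasDerivAt (x : ℤ) (t : ℝ) : HasDerivAt (D.ret x) (D.ret' x t) t := by
  have := D.sg_eval_hasDerivAt (e x) x t
  rw [← D.op_apply] at this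
  exact this

theorem ret_zero (x : ℤ) : D.ret x 0 = 1 := by
  simp [ret, sg_zero, e_apply]

/-- The derivative of the return function is nondecreasing. -/
theorem ret'_hasDerivAt (x : ℤ) (t : ℝ) :
    HasDerivAt (D.ret' x) (D.act (D.op (D.sg t (e x))) x) t := by
  have h1 : D.ret' x = fun s => (D.sg s (D.op (e x))) x := by
    ext s
    rw [ret', D.sg_comm]
  rw [h1]
  have := D.sg_eval_hasDerivAt (D.op (e x)) x t
  rw [D.sg_comm] at this
  exact this

theorem inner_sg_self_nonneg (f : L2) (t : ℝ) : 0 ≤ inner ℝ f (D.sg t f) := by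
  have h : D.sg t = D.sg (t / 2) * D.sg (t / 2) := by
    rw [← D.sg_add]; congr 1; ring
  rw [h]
  show 0 ≤ inner ℝ f (D.sg (t / 2) (D.sg (t / 2) f))
  rw [← D.sg_symm]
  exact real_inner_self_nonneg

theorem ret'_deriv_nonneg (x : ℤ) (t : ℝ) : 0 ≤ D.act (D.op (D.sg t (e x))) x := by
  rw [← D.op_apply, ← inner_e_left x, ← D.op_symm, ← D.sg_comm]
  exact D.inner_sg_self_nonneg _ _

theorem ret'_mono (x : ℤ) : Monotone (D.ret' x) := by
  apply monotone_of_deriv_nonneg (fun t => (D.ret'_hasDerivAt x t).differentiableAt)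
  intro t
  rw [(D.ret'_hasDerivAt x t).deriv]
  exact D.ret'_deriv_nonneg x t

theorem ret'_continuous (x : ℤ) : Continuous (D.ret' x) :=
  continuous_iff_continuousAt.mpr fun t => (D.ret'_hasDerivAt x t).continuousAt

theorem sg_symm_apply (t : ℝ) (x y : ℤ) : (D.sg t (e x)) y = (D.sg t (e y)) x := by
  rw [← inner_e_left y, ← D.sg_symm, real_inner_comm, inner_e_left]

end JacData

end Pool.Agent.Lib.MP_360c0a_pr
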