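import Mathlib
import Pool.Agent.Lib.MP_360c0a_pr.Positivity

/-!
# Strict positivity and growth of the semigroup
-/

namespace Pool.Agent.Lib.MP_360c0a_pr

open Set Filter Topology

namespace JacData

variable (D : JacData)

/-- A nonnegative function whose derivative is bounded below by `-C u + r`, `r > 0`, is positive
at positive times. -/
theorem pos_of_deriv_lower {u u' : ℝ → ℝ} {C : ℝ}
    (hu : ∀ t, 0 ≤ t → HasDerivAt u (u' t) t) (hu0 : ∀ t, 0 ≤ t → 0 ≤ u t)
    (h : ∀ t, 0 < t → -(C * u t) < u' t) {t : ℝ} (ht : 0 < t) : 0 < u t := by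
  have hder : ∀ s, 0 ≤ s → HasDerivAt (fun s => Real.exp (C * s) * u s)
      (Real.exp (C * s) * (C * u s + u' s)) s := by
    intro s hs
    have h1 : HasDerivAt (fun s : ℝ => Real.exp (C * s)) (Real.exp (C * s) * C) s := by
      have h3 : HasDerivAt (fun s : ℝ => C * s) C s := by
        simpa using (hasDerivAt_id s).const_mul C
      exact h3.exp
    convert! h1.mul (hu s hs) using 1
    ring
  have hmono : StrictMonoOn (fun s => Real.exp (C * s) * u s) (Icc 0 t) := by
    apply strictMonoOn_of_deriv_pos (convex_Icc _ _)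
    · intro s hs
      exact (hder s hs.1).continuousAt.continuousWithinAt
    · intro s hs
      rw [interior_Icc] at hs
      rw [(hder s hs.1.le).deriv]
      have := h s hs.1
      have := Real.exp_pos (C * s)
      apply mul_pos this
      linarith
  have h1 := hmono ⟨le_rfl, ht.le⟩ ⟨ht.le, le_rfl⟩ ht
  simp only [mul_zero, Real.exp_zero, one_mul] at h1
  have h2 := hu0 0 le_rfl
  have h3 : 0 < Real.exp (C * t) * u t := lt_of_le_of_lt h2 h1
  exact pos_of_mul_pos_right h3 (Real.exp_pos _).le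

theorem act_lower_self {f : ℤ → ℝ} (hf : ∀ i, 0 ≤ f i) (i : ℤ) : -(D.C * f i) ≤ D.act f i := by
  have hJ1 := D.J_nonneg i
  have hJ2 := D.J_nonneg (i - 1)
  have hV := abs_le.mp (D.V_le i)
  have h1 := mul_nonneg hJ1 (hf (i + 1))
  have h2 := mul_nonneg hJ2 (hf (i - 1))
  have h3 := mul_nonneg (by linarith : 0 ≤ D.V i + D.C) (hf i)
  unfold act
  linarith

theorem ret_pos (x : ℤ) {t : ℝ} (ht : 0 ≤ t) : 0 < D.ret x t := by
  have hder : ∀ s, HasDerivAt (fun s => Real.exp (D.C * s) * D.ret x s)
      (Real.exp (D.C * s) * (D.C * D.ret x s + D.ret' x s)) s := by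
    intro s
    have h1 : HasDerivAt (fun s : ℝ => Real.exp (D.C * s)) (Real.exp (D.C * s) * D.C) s := by
      have h3 : HasDerivAt (fun s : ℝ => D.C * s) D.C s := by
        simpa using (hasDerivAt_id s).const_mul D.C
      exact h3.exp
    convert! h1.mul (D.ret_hasDerivAt x s) using 1
    ring
  have hmono : MonotoneOn (fun s => Real.exp (D.C * s) * D.ret x s) (Icc 0 t) := by
    apply monotoneOn_of_deriv_nonneg (convex_Icc _ _)
    · intro s hs
      exact (hder s).continuousAt.continuousWithinAt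
    · intro s hs
      exact (hder s).differentiableAt.differentiableWithinAt
    · intro s hs
      rw [interior_Icc] at hs
      rw [(hder s).deriv]
      apply mul_nonneg (Real.exp_pos _).le
      have := D.act_lower_self (f := fun i => (D.sg s (e x)) i)
        (fun i => D.sg_nonneg (e_nonneg x) hs.1.le i) x
      rw [ret', D.op_apply]
      show 0 ≤ D.C * (D.sg s (e x)) x + _
      linarith
  have h1 := hmono ⟨le_rfl, ht⟩ ⟨ht, le_rfl⟩ ht
  simp only [mul_zero, Real.exp_zero, one_mul, ret_zero] at h1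
  have h3 : 0 < Real.exp (D.C * t) * D.ret x t := lt_of_lt_of_le one_pos h1
  exact pos_of_mul_pos_right h3 (Real.exp_pos _).le

/-- Positivity spreads to a neighbour, general nonnegative solutions. -/
theorem pos_spread {U : ℝ → ℤ → ℝ} (hU : ∀ t, 0 ≤ t → ∀ i, HasDerivAt (fun s => U s i) (D.act (U t) i) t)
    (hU0 : ∀ t, 0 ≤ t → ∀ i, 0 ≤ U t i) {y : ℤ} (hy : ∀ t, 0 < t → 0 < U t y) {t : ℝ}
    (ht : 0 < t) : (0 < D.J y → 0 < U t (y + 1)) ∧ (0 < D.J (y - 1) → 0 < U t (y - 1)) := by
  constructor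
  · intro hJ
    refine pos_of_deriv_lower (u := fun s => U s (y + 1)) (C := D.C) (fun s hs => hU s hs _)
      (fun s hs => hU0 s hs _) (fun s hs => ?_) ht
    have h1 := mul_nonneg (D.J_nonneg (y + 1)) (hU0 s hs.le (y + 1 + 1))
    have h2 := mul_pos hJ (hy s hs)
    have hV := abs_le.mp (D.V_le (y + 1))
    have h3 := mul_nonneg (by linarith : 0 ≤ D.V (y + 1) + D.C) (hU0 s hs.le (y + 1))
    unfold act
    rw [show y + 1 - 1 = y by ring]
    linarith
  · intro hJ
    refine pos_of_deriv_lower (u := fun s => U s (y - 1)) (C := D.C) (fun s hs => hU s hs _)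
      (fun s hs => hU0 s hs _) (fun s hs => ?_) ht
    have h1 := mul_nonneg (D.J_nonneg (y - 1 - 1)) (hU0 s hs.le (y - 1 - 1))
    have h2 := mul_pos hJ (hy s hs)
    have hV := abs_le.mp (D.V_le (y - 1))
    have h3 := mul_nonneg (by linarith : 0 ≤ D.V (y - 1) + D.C) (hU0 s hs.le (y - 1))
    unfold act
    rw [show y - 1 + 1 = y by ring]
    linarith

theorem sg_e_pos_left (b : ℤ) (hJ : ∀ y, y < b → 0 < D.J y) (n : ℕ) :
    ∀ t, 0 < t → 0 < (D.sg t (e b)) (b - n) := by
  induction n with
  | zero =>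
    intro t ht
    simpa [ret] using D.ret_pos b ht.le
  | succ n ih =>
    intro t ht
    have h := (D.pos_spread (U := fun s i => (D.sg s (e b)) i)
      (fun s _ i => D.sg_eval_hasDerivAt (e b) i s)
      (fun s hs i => D.sg_nonneg (e_nonneg b) hs i) ih ht).2 (hJ _ (by omega))
    have h2 : b - (n : ℤ) - 1 = b - ((n + 1 : ℕ) : ℤ) := by push_cast; ring
    rw [h2] at h
    exact h

/-- The tent function centred at `z` with radius `N`. -/
noncomputable def tent (z : ℤ) (N : ℕ) (y : ℤ) : ℝ := max 0 ((N : ℝ) - |(y : ℝ) - z|)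

theorem tent_nonneg (z : ℤ) (N : ℕ) (y : ℤ) : 0 ≤ tent z N y := le_max_left _ _

theorem tent_le (z : ℤ) (N : ℕ) (y : ℤ) : tent z N y ≤ N := by
  unfold tent
  apply max_le (by positivity)
  have := abs_nonneg ((y : ℝ) - z)
  linarith

theorem tent_of_abs_le {z : ℤ} {N : ℕ} {y : ℤ} (h : |y - z| ≤ N) :
    tent z N y = (N : ℝ) - |(y : ℝ) - z| := by
  unfold tent
  apply max_eq_right
  have h2 : ((|y - z| : ℤ) : ℝ) ≤ ((N : ℤ) : ℝ) := by exact_mod_cast h
  push_cast at h2
  linarith

theorem tent_of_le_abs {z : ℤ} {N : ℕ} {y : ℤ} (h : (N : ℤ) ≤ |y - z|) : tent z N y = 0 := by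
  unfold tent
  apply max_eq_left
  have h2 : ((N : ℤ) : ℝ) ≤ ((|y - z| : ℤ) : ℝ) := by exact_mod_cast h
  push_cast at h2
  linarith

/-- The discrete tent function is superharmonic only at its top. -/
theorem tent_laplace {z : ℤ} {N : ℕ} (hN : 1 ≤ N) {y : ℤ} (hy : |y - z| < N) :
    tent z N (y + 1) + tent z N (y - 1) = 2 * tent z N y - (if y = z then 2 else 0) := by
  rcases lt_trichotomy y z with h | h | h
  · have e1 : |y - z| = z - y := by rw [abs_of_neg (by omega)]; ring
    have e2 : |y + 1 - z| = z - y - 1 := by rw [abs_of_nonpos (by omega)]; ring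
    have e3 : |y - 1 - z| = z - y + 1 := by rw [abs_of_neg (by omega)]; ring
    rw [tent_of_abs_le (y := y) (by omega), tent_of_abs_le (y := y + 1) (by omega),
      tent_of_abs_le (y := y - 1) (by omega), if_neg (by omega)]
    have hr : (y : ℝ) + 1 ≤ z := by exact_mod_cast h
    push_cast
    rw [abs_of_nonpos (by linarith : (y : ℝ) - z ≤ 0),
      abs_of_nonpos (by linarith : (y : ℝ) + 1 - z ≤ 0),
      abs_of_nonpos (by linarith : (y : ℝ) - 1 - z ≤ 0)]
    ring
  · subst h
    rw [tent_of_abs_le (y := y) (by simp), tent_of_abs_le (y := y + 1) (by simp; omega),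
      tent_of_abs_le (y := y - 1) (by simp; omega), if_pos rfl]
    push_cast
    norm_num
    ring
  · have e1 : |y - z| = y - z := abs_of_nonneg (by omega)
    have e2 : |y + 1 - z| = y + 1 - z := abs_of_nonneg (by omega)
    have e3 : |y - 1 - z| = y - 1 - z := abs_of_nonneg (by omega)
    rw [tent_of_abs_le (y := y) (by omega), tent_of_abs_le (y := y + 1) (by omega),
      tent_of_abs_le (y := y - 1) (by omega), if_neg (by omega)]
    have hr : (z : ℝ) + 1 ≤ y := by exact_mod_cast h
    push_cast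
    rw [abs_of_nonneg (by linarith : 0 ≤ (y : ℝ) - z),
      abs_of_nonneg (by linarith : 0 ≤ (y : ℝ) + 1 - z),
      abs_of_nonneg (by linarith : 0 ≤ (y : ℝ) - 1 - z)]
    ring

/-- The tent function supported in `y ≤ b` is a subsolution. -/
theorem tent_act {a : ℝ} (ha : 0 < a) (b : ℤ) (hJ : ∀ y, y < b → D.J y = 1 / 2)
    (hV : ∀ y, a - 1 ≤ D.V y) {N : ℕ} (hN : 2 / a ≤ N) (y : ℤ) :
    a / 2 * tent (b + 1 - N) N y ≤ D.act (tent (b + 1 - N) N) y := by
  have hN0 : (0 : ℝ) < N := lt_of_lt_of_le (by positivity) hN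
  have hN1 : 1 ≤ N := by exact_mod_cast Nat.one_le_iff_ne_zero.mpr (by rintro rfl; simp at hN0)
  set z : ℤ := b + 1 - N with hz
  by_cases hy : |y - z| < N
  · -- inside the support
    have hyb : y ≤ b := by
      have := (abs_lt.mp hy).2
      omega
    have h1 := tent_laplace (z := z) hN1 hy
    have hJ1 : D.J (y - 1) = 1 / 2 := hJ _ (by omega)
    have hJ2 : D.J y * tent z N (y + 1) = 1 / 2 * tent z N (y + 1) := by
      rcases lt_or_eq_of_le hyb with h | h
      · rw [hJ y h]
      · rw [tent_of_le_abs (y := y + 1), mul_zero, mul_zero]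
        rw [h, hz]
        have : b + 1 - (b + 1 - (N : ℤ)) = N := by ring
        rw [this]
        exact le_abs_self _
    have ht := tent_nonneg z N y
    have hVy := hV y
    have h5 := mul_le_mul_of_nonneg_right hVy ht
    unfold act
    rw [hJ2, hJ1]
    split_ifs at h1 with hyz
    · have htop : tent z N y = N := by
        rw [hyz, tent_of_abs_le (by simp)]
        simp
      rw [htop] at h1 h5 ht ⊢
      have : a * N ≥ 2 := by
        have := mul_le_mul_of_nonneg_left hN ha.le
        field_simp at this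
        linarith
      nlinarith
    · nlinarith
  · push Not at hy
    rw [tent_of_le_abs hy, mul_zero]
    unfold act
    rw [tent_of_le_abs hy, mul_zero, add_zero]
    have h1 := mul_nonneg (D.J_nonneg y) (tent_nonneg z N (y + 1))
    have h2 := mul_nonneg (D.J_nonneg (y - 1)) (tent_nonneg z N (y - 1))
    linarith

/-- The return function at the boundary of a half line (or in the full line) is unbounded. -/
theorem ret_unbounded {a : ℝ} (ha : 0 < a) (b : ℤ) (hJ : ∀ y, y < b → D.J y = 1 / 2)
    (hV : ∀ y, a - 1 ≤ D.V y) (M : ℝ) : ∃ t, 0 ≤ t ∧ M < D.ret b t := by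
  obtain ⟨N, hN⟩ := exists_nat_ge (2 / a)
  have hN0 : (0 : ℝ) < N := lt_of_lt_of_le (by positivity) hN
  have hN1 : 1 ≤ N := by exact_mod_cast Nat.one_le_iff_ne_zero.mpr (by rintro rfl; simp at hN0)
  set z : ℤ := b + 1 - N with hz
  -- lower bound at time one
  have hfin : ∃ ε : ℝ, 0 < ε ∧ ∀ y, ε * tent z N y ≤ (D.sg 1 (e b)) y := by
    have hpos : ∀ n ∈ Finset.range (2 * N), 0 < (D.sg 1 (e b)) (b - (n : ℤ)) := by
      intro n _
      exact D.sg_e_pos_left b (fun y hy => by rw [hJ y hy]; norm_num) n 1 one_pos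
    have hne : (Finset.range (2 * N)).Nonempty := ⟨0, by simp; omega⟩
    obtain ⟨n₀, hn₀, hmin⟩ := Finset.exists_min_image (Finset.range (2 * N))
      (fun n : ℕ => (D.sg 1 (e b)) (b - (n : ℤ))) hne
    refine ⟨(D.sg 1 (e b)) (b - (n₀ : ℤ)) / N, div_pos (hpos n₀ hn₀) hN0, fun y => ?_⟩
    by_cases hy : |y - z| < N
    · have h1 := abs_lt.mp hy
      have h2 : ∃ n : ℕ, n ∈ Finset.range (2 * N) ∧ y = b - (n : ℤ) := by
        refine ⟨(b - y).toNat, ?_, ?_⟩
        · rw [Finset.mem_range]; omega
        · omega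
      obtain ⟨n, hn, rfl⟩ := h2
      have h3 := hmin n hn
      have h4 := tent_le z N (b - (n : ℤ))
      calc (D.sg 1 (e b)) (b - (n₀ : ℤ)) / N * tent z N (b - (n : ℤ))
          ≤ (D.sg 1 (e b)) (b - (n₀ : ℤ)) / N * N :=
            mul_le_mul_of_nonneg_left h4 (div_pos (hpos n₀ hn₀) hN0).le
        _ = (D.sg 1 (e b)) (b - (n₀ : ℤ)) := by field_simp
        _ ≤ _ := h3
    · push Not at hy
      rw [tent_of_le_abs hy, mul_zero]
      exact D.sg_nonneg (e_nonneg b) zero_le_one y
  obtain ⟨ε, hε, hlow⟩ := hfin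
  -- exponential lower bound
  have hexp : ∀ t, 0 ≤ t → ε * Real.exp (a / 2 * t) * tent z N b ≤ D.ret b (1 + t) := by
    intro t ht
    have key := D.nonneg_of_source
      (fun s y => (D.sg (s + 1) (e b)) y - ε * Real.exp (a / 2 * s) * tent z N y)
      (fun s y => ε * Real.exp (a / 2 * s) * (D.act (tent z N) y - a / 2 * tent z N y)) t ht
      ?_ ?_ ?_ ?_ b
    · rw [ret, add_comm 1 t]
      linarith
    · intro s _ _ y
      have h1 : HasDerivAt (fun s => (D.sg (s + 1) (e b)) y) (D.act (D.sg (s + 1) (e b)) y) s := by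
        have := (D.sg_eval_hasDerivAt (e b) y (s + 1)).comp_add_const s 1
        exact this
      have h2 : HasDerivAt (fun s : ℝ => ε * Real.exp (a / 2 * s) * tent z N y)
          (ε * (Real.exp (a / 2 * s) * (a / 2)) * tent z N y) s := by
        have h3 : HasDerivAt (fun s : ℝ => a / 2 * s) (a / 2) s := by
          simpa using (hasDerivAt_id s).const_mul (a / 2)
        exact (h3.exp.const_mul ε).mul_const _
      convert! (h1.sub h2).hasDerivWithinAt using 1
      unfold act
      ring
    · obtain ⟨C, hC⟩ := D.sg_bdd (e b) (t + 1)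
      refine ⟨ε * Real.exp (a / 2 * t) * N, fun s h0 h1 y => ?_⟩
      have h3 := D.sg_nonneg (e_nonneg b) (by linarith : 0 ≤ s + 1) y
      have h4 : Real.exp (a / 2 * s) ≤ Real.exp (a / 2 * t) :=
        Real.exp_le_exp.mpr (by nlinarith)
      have h5 := tent_le z N y
      have h6 := tent_nonneg z N y
      have h7 : ε * Real.exp (a / 2 * s) * tent z N y ≤ ε * Real.exp (a / 2 * t) * N := by
        apply mul_le_mul _ h5 h6 (by positivity)
        exact mul_le_mul_of_nonneg_left h4 hε.le
      linarith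
    · intro s h0 h1 y
      have := D.tent_act ha b hJ hV hN y
      have h2 : 0 < ε * Real.exp (a / 2 * s) := by positivity
      apply mul_nonneg h2.le
      linarith
    · intro y
      simpa using hlow y
  have htb : tent z N b = 1 := by
    rw [tent_of_abs_le]
    · rw [hz]
      push_cast
      rw [show (b : ℝ) - (b + 1 - N) = N - 1 by ring, abs_of_nonneg]
      · ring
      · have : (1 : ℝ) ≤ N := by exact_mod_cast hN1
        linarith
    · rw [hz, show b - (b + 1 - (N : ℤ)) = N - 1 by ring, abs_of_nonneg (by omega)]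
      omega
  have hlim : Tendsto (fun t : ℝ => ε * Real.exp (a / 2 * t)) atTop atTop := by
    apply Tendsto.const_mul_atTop hε
    exact Real.tendsto_exp_atTop.comp (Tendsto.const_mul_atTop (by positivity) tendsto_id)
  obtain ⟨t, ht0, ht⟩ := ((eventually_ge_atTop (0 : ℝ)).and (hlim.eventually_gt_atTop M)).exists
  refine ⟨1 + t, by linarith, ?_⟩
  have := hexp t ht0
  rw [htb, mul_one] at this
  linarith

end JacData

end Pool.Agent.Lib.MP_360c0a_pr
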