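import Mathlib
import Pool.Agent.Lib.MP_360c0a_pr.Growth

/-!
# Total positivity and the half line started at its boundary
-/

namespace Pool.Agent.Lib.MP_360c0a_pr

open Set Filter Topology

namespace JacData

variable (D : JacData)

/-- Two particle determinant. -/
noncomputable def det2 (f g : ℤ → ℝ) (i j : ℤ) : ℝ := f i * g j - f j * g i

theorem det2_lower (u v : ℤ → ℝ) {m : ℝ} (hm : 0 ≤ m)
    (hlo : ∀ i j : ℤ, i < j → -m ≤ det2 u v i j) (i j : ℤ) (hij : i < j) :
    -(8 * D.C * m) ≤ (D.act u i * v j + u i * D.act v j - (D.act u j * v i + u j * D.act v i))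
      + 2 * D.C * det2 u v i j := by
  have hlo' : ∀ i j : ℤ, i ≤ j → -m ≤ det2 u v i j := by
    intro i j hij
    rcases lt_or_eq_of_le hij with h | h
    · exact hlo i j h
    · subst h
      have : det2 u v i i = 0 := by unfold det2; ring
      rw [this]; linarith
  have b1 := hlo' (i + 1) j (by omega)
  have b2 := hlo' (i - 1) j (by omega)
  have b3 := hlo' i (j + 1) (by omega)
  have b4 := hlo' i (j - 1) (by omega)
  have b5 := hlo' i j hij.le
  have a1 := D.act_add_lower (f := fun k => det2 u v k j) hm b1 b2 b5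
  have a2 := D.act_add_lower (f := fun k => det2 u v i k) hm b3 b4 b5
  have : D.act u i * v j + u i * D.act v j - (D.act u j * v i + u j * D.act v i)
      = D.act (fun k => det2 u v k j) i + D.act (fun k => det2 u v i k) j := by
    unfold act det2
    ring
  rw [this]
  linarith

/-- Total positivity of order two of the semigroup (Karlin-McGregor), proved with the comparison
principle for two noncolliding particles. -/
theorem det2_nonneg {f g : L2} (hfg : ∀ i j : ℤ, i < j → 0 ≤ det2 f g i j) {t : ℝ} (ht : 0 ≤ t)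
    (i j : ℤ) (hij : i < j) : 0 ≤ det2 (D.sg t f) (D.sg t g) i j := by
  have hC := D.C_nonneg
  have key := comparison_Icc (ι := {p : ℤ × ℤ // p.1 < p.2})
    (fun s p => det2 (D.sg s f) (D.sg s g) p.1.1 p.1.2)
    (fun s p => D.act (D.sg s f) p.1.1 * (D.sg s g) p.1.2 + (D.sg s f) p.1.1 * D.act (D.sg s g) p.1.2
      - (D.act (D.sg s f) p.1.2 * (D.sg s g) p.1.1 + (D.sg s f) p.1.2 * D.act (D.sg s g) p.1.1))
    (8 * D.C) (2 * D.C) t (by positivity) ht ?_ ?_ ?_ ?_
  · exact key ⟨(i, j), hij⟩
  · intro s _ _ p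
    have h1 := (D.sg_eval_hasDerivAt f p.1.1 s).mul (D.sg_eval_hasDerivAt g p.1.2 s)
    have h2 := (D.sg_eval_hasDerivAt f p.1.2 s).mul (D.sg_eval_hasDerivAt g p.1.1 s)
    exact (h1.sub h2).hasDerivWithinAt
  · obtain ⟨C1, hC1⟩ := D.sg_bdd f t
    obtain ⟨C2, hC2⟩ := D.sg_bdd g t
    refine ⟨2 * (C1 * C2), fun s h0 h1 p => ?_⟩
    have b1 := hC1 s h0 h1 p.1.1
    have b2 := hC1 s h0 h1 p.1.2
    have b3 := hC2 s h0 h1 p.1.1
    have b4 := hC2 s h0 h1 p.1.2
    have hC1' : 0 ≤ C1 := le_trans (abs_nonneg _) b1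
    have e1 : |(D.sg s f) p.1.1 * (D.sg s g) p.1.2| ≤ C1 * C2 := by
      rw [abs_mul]; exact mul_le_mul b1 b4 (abs_nonneg _) hC1'
    have e2 : |(D.sg s f) p.1.2 * (D.sg s g) p.1.1| ≤ C1 * C2 := by
      rw [abs_mul]; exact mul_le_mul b2 b3 (abs_nonneg _) hC1'
    have e3 := (abs_le.mp e1).1
    have e4 := (abs_le.mp e2).2
    show -(2 * (C1 * C2)) ≤ det2 (D.sg s f) (D.sg s g) p.1.1 p.1.2
    unfold det2
    linarith
  · intro s h0 h1 m hm hlo p
    exact D.det2_lower _ _ hm (fun i j hij => hlo ⟨(i, j), hij⟩) p.1.1 p.1.2 p.2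
  · intro p
    simpa [sg_zero] using hfg p.1.1 p.1.2 p.2

/-- For the half line `y ≤ b` started at its boundary, there is a time after which the solution
is nondecreasing in time at every site `y ≤ b`. -/
theorem halfLine_start {a : ℝ} (ha : 0 < a) (b : ℤ) (hb : D.J b = 0)
    (hJ : ∀ y, y < b → D.J y = 1 / 2) (hV : ∀ y, a - 1 ≤ D.V y) :
    ∃ S, 0 ≤ S ∧ ∀ s, S ≤ s → ∀ y, y ≤ b → 0 ≤ (D.op (D.sg s (e b))) y := by
  -- there is a time `S` with nonnegative derivative at the boundary
  have hS : ∃ S, 0 ≤ S ∧ 0 ≤ D.ret' b S := by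
    by_contra hcon
    push Not at hcon
    have hanti : AntitoneOn (D.ret b) (Ici 0) := by
      apply antitoneOn_of_deriv_nonpos (convex_Ici 0)
      · intro s _; exact (D.ret_hasDerivAt b s).continuousAt.continuousWithinAt
      · intro s _; exact (D.ret_hasDerivAt b s).differentiableAt.differentiableWithinAt
      · intro s hs
        rw [interior_Ici] at hs
        rw [(D.ret_hasDerivAt b s).deriv]
        exact (hcon s (le_of_lt hs)).le
    obtain ⟨t, ht0, ht⟩ := D.ret_unbounded ha b hJ hV 1
    have := hanti (show (0 : ℝ) ∈ Ici 0 from le_refl (0 : ℝ)) (show t ∈ Ici 0 from ht0) ht0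
    rw [D.ret_zero] at this
    linarith
  obtain ⟨S, hS0, hS⟩ := hS
  -- the derivative as a combination of two solutions
  have hop : D.op (e b) = (1 / 2 : ℝ) • e (b - 1) + D.V b • e b := by
    ext i
    rw [D.op_apply]
    show D.act (e b) i = 1 / 2 * e (b - 1) i + D.V b * e b i
    unfold act
    simp only [e_apply]
    rcases lt_trichotomy i b with h | h | h
    · by_cases h2 : i = b - 1
      · subst h2
        rw [hJ _ (by omega), if_pos (by ring), if_neg (by omega), if_neg (by omega), if_pos rfl]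
        ring
      · rw [if_neg (by omega), if_neg (by omega), if_neg (by omega), if_neg (by omega)]
        ring
    · subst h
      rw [if_neg (by omega), if_neg (by omega), if_pos rfl, if_neg (by omega)]
      ring
    · rw [if_neg (show ¬ (i + 1 = b) by omega), if_neg (show ¬ (i = b) by omega),
        if_neg (show ¬ (i = b - 1) by omega)]
      by_cases h2 : i = b + 1
      · subst h2
        rw [show b + 1 - 1 = b by ring, hb]
        ring
      · rw [if_neg (by omega)]
        ring
  have hz : ∀ s y, (D.op (D.sg s (e b))) y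
      = 1 / 2 * (D.sg s (e (b - 1))) y + D.V b * (D.sg s (e b)) y := by
    intro s y
    rw [← D.sg_comm, hop, map_add, map_smul, map_smul]
    rfl
  -- nonnegativity at time `S`
  have hSy : ∀ y, y ≤ b → 0 ≤ (D.op (D.sg S (e b))) y := by
    intro y hy
    rcases lt_or_eq_of_le hy with hlt | heq
    · have hdet := D.det2_nonneg (f := e (b - 1)) (g := e b) (by
        intro i j hij
        unfold det2
        simp only [e_apply]
        split_ifs <;> first | omega | norm_num) hS0 y b hlt
      unfold det2 at hdet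
      have h1 : 0 < (D.sg S (e b)) b := D.ret_pos b hS0
      have h2 : 0 ≤ (D.sg S (e b)) y := D.sg_nonneg (e_nonneg b) hS0 y
      have h3 : 0 ≤ 1 / 2 * (D.sg S (e (b - 1))) b + D.V b * (D.sg S (e b)) b := by
        rw [← hz]; exact hS
      rw [hz]
      have h4 := mul_nonneg h2 h3
      have h5 : 0 ≤ (1 / 2 * (D.sg S (e (b - 1))) y + D.V b * (D.sg S (e b)) y)
          * (D.sg S (e b)) b := by nlinarith
      exact nonneg_of_mul_nonneg_left h5 h1
    · subst heq
      exact hS
  refine ⟨S, hS0, fun s hs y hy => ?_⟩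
  -- propagate in time
  have hcomp := D.nonneg_of_source_left b hb
    (fun r y => (D.sg r (D.op (D.sg S (e b)))) y) (fun _ _ => 0) (s - S) (by linarith) ?_ ?_ ?_ ?_
    y hy
  · have h1 : D.sg (s - S) (D.op (D.sg S (e b))) = D.op (D.sg s (e b)) := by
      rw [D.sg_comm]
      congr 1
      have := D.sg_add (s - S) S
      rw [sub_add_cancel] at this
      rw [this]
      rfl
    rw [← h1]
    exact hcomp
  · intro r _ _ i _
    have := (D.sg_eval_hasDerivAt (D.op (D.sg S (e b))) i r).hasDerivWithinAt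
      (s := Icc 0 (s - S))
    simpa using this
  · obtain ⟨C, hC⟩ := D.sg_bdd (D.op (D.sg S (e b))) (s - S)
    exact ⟨C, fun r h0 h1 i _ => (abs_le.mp (hC r h0 h1 i)).1⟩
  · intros; exact le_rfl
  · intro i hi
    simpa [sg_zero] using hSy i hi

end JacData

end Pool.Agent.Lib.MP_360c0a_pr
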