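import Mathlib
import Pool.Agent.Lib.MP_360c0a_pr.HalfLine

/-!
# Eventual monotonicity of the fundamental solution in the full line, uniformly in space
-/

namespace Pool.Agent.Lib.MP_360c0a_pr

open Set Filter Topology

namespace JacData

variable (D : JacData)

/-- Remove the edge `(b, b + 1)`. -/
noncomputable def cut (b : ℤ) : JacData where
  J := fun i => if i = b then 0 else D.J i
  V := D.V
  C := D.C
  J_nonneg := fun i => by
    split_ifs
    · exact le_rfl
    · exact D.J_nonneg i
  J_le := fun i => by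
    split_ifs
    · exact D.C_nonneg
    · exact D.J_le i
  V_le := D.V_le

theorem act_cut (b : ℤ) (f : ℤ → ℝ) (i : ℤ) :
    D.act f i = (D.cut b).act f i + ((if i = b then D.J b * f (b + 1) else 0)
      + (if i = b + 1 then D.J b * f b else 0)) := by
  unfold act cut
  simp only
  by_cases h1 : i = b
  · subst h1
    rw [if_pos rfl, if_neg (by omega), if_pos rfl, if_neg (by omega)]
    ring
  · by_cases h2 : i = b + 1
    · subst h2
      rw [if_neg (by omega), if_pos (by ring), if_neg (by omega), if_pos rfl,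
        show b + 1 - 1 = b by ring]
      ring
    · rw [if_neg h1, if_neg (by omega), if_neg h1, if_neg h2]
      ring

theorem op_cut (b : ℤ) (f : L2) :
    D.op f = (D.cut b).op f + (D.J b * f (b + 1)) • e b + (D.J b * f b) • e (b + 1) := by
  ext i
  rw [D.op_apply, D.act_cut b]
  show _ = ((D.cut b).op f) i + (D.J b * f (b + 1)) * e b i + (D.J b * f b) * e (b + 1) i
  rw [(D.cut b).op_apply, e_apply, e_apply]
  split_ifs <;> ring

/-- The time derivative of the fundamental solution started at `x` is eventually nonnegative,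
uniformly on the left of `x`. -/
theorem left_nonneg {a : ℝ} (ha : 0 < a) (hJ : ∀ y, D.J y = 1 / 2)
    (hV : ∀ y, a - 1 ≤ D.V y) (x : ℤ) :
    ∃ T, 0 ≤ T ∧ ∀ t, T ≤ t → ∀ y, y ≤ x → 0 ≤ (D.op (D.sg t (e x))) y := by
  obtain ⟨b, rfl⟩ : ∃ b : ℤ, x = b + 1 := ⟨x - 1, by ring⟩
  set B := D.cut b with hB
  have hBb : B.J b = 0 := by simp [hB, cut]
  have hBJ : ∀ y, y < b → B.J y = 1 / 2 := by
    intro y hy
    show (if y = b then 0 else D.J y) = 1 / 2
    rw [if_neg (by omega), hJ]
  have hBV : ∀ y, a - 1 ≤ B.V y := hV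
  obtain ⟨S, hS0, hS⟩ := B.halfLine_start ha b hBb hBJ hBV
  -- the time at which the derivative of the return function becomes nonnegative
  have hret : ∃ Tf, 0 ≤ Tf ∧ (∀ t, 0 ≤ t → t ≤ Tf → D.ret' (b + 1) t ≤ 0 ∨ Tf = 0) ∧
      ∀ t, Tf ≤ t → 0 ≤ D.ret' (b + 1) t := by
    by_cases h0 : 0 ≤ D.ret' (b + 1) 0
    · exact ⟨0, le_rfl, fun _ _ _ => Or.inr rfl, fun t ht => le_trans h0 (D.ret'_mono _ ht)⟩
    · push Not at h0
      have hex : ∃ t, 0 ≤ t ∧ 0 ≤ D.ret' (b + 1) t := by
        by_contra hcon
        push Not at hcon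
        have hanti : AntitoneOn (D.ret (b + 1)) (Ici 0) := by
          apply antitoneOn_of_deriv_nonpos (convex_Ici 0)
          · intro s _; exact (D.ret_hasDerivAt _ s).continuousAt.continuousWithinAt
          · intro s _; exact (D.ret_hasDerivAt _ s).differentiableAt.differentiableWithinAt
          · intro s hs
            rw [interior_Ici] at hs
            rw [(D.ret_hasDerivAt _ s).deriv]
            exact (hcon s (le_of_lt hs)).le
        obtain ⟨t, ht0, ht⟩ := D.ret_unbounded ha (b + 1) (fun y _ => hJ y) hV 1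
        have := hanti (show (0 : ℝ) ∈ Ici 0 from le_refl (0 : ℝ)) (show t ∈ Ici 0 from ht0) ht0
        rw [D.ret_zero] at this
        linarith
      obtain ⟨t1, ht1, ht1'⟩ := hex
      have hivt := intermediate_value_Icc ht1 (D.ret'_continuous (b + 1)).continuousOn
      obtain ⟨Tf, hTf, hTf0⟩ := hivt ⟨h0.le, ht1'⟩
      refine ⟨Tf, hTf.1, fun t _ ht => Or.inl ?_, fun t ht => ?_⟩
      · rw [← hTf0]; exact D.ret'_mono _ ht
      · rw [← hTf0]; exact D.ret'_mono _ ht
  obtain ⟨Tf, hTf0, hneg, hpos⟩ := hret
  -- notation: `w t` is the time derivative of the fundamental solution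
  set w : ℝ → L2 := fun t => D.op (D.sg t (e (b + 1))) with hw
  have hw_der : ∀ t, HasDerivAt w (D.op (w t)) t := by
    intro t
    have h1 : w = fun s => D.sg s (D.op (e (b + 1))) := by
      ext1 s
      exact (D.sg_comm s _).symm
    have h2 := D.sg_apply_hasDerivAt (D.op (e (b + 1))) t
    rw [D.sg_comm] at h2
    have h3 : HasDerivAt w (D.op (D.op (D.sg t (e (b + 1))))) t := by
      rw [h1]
      exact h2
    exact h3
  have hwx : ∀ t, w t (b + 1) = D.ret' (b + 1) t := fun t => rfl
  have hw0 : w 0 = (1 / 2 : ℝ) • e b + (D.op (e (b + 1)) - (1 / 2 : ℝ) • e b) := by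
    simp only [hw, sg_zero]
    simp
  -- step 1: nonnegativity of `B.sg S (w Tf)` on the left half line
  have step1 : ∀ y, y ≤ b → 0 ≤ (B.sg S (w Tf)) y := by
    intro y hy
    have hcoef : ∀ t, 0 ≤ t → t ≤ Tf → (D.ret' (b + 1) t ≤ 0) ∨ Tf = 0 := hneg
    have hcomp := B.nonneg_of_source_left b hBb
      (fun t y => (B.sg S (w t)) y - 1 / 2 * D.ret (b + 1) t * (B.sg (S + t) (e b)) y)
      (fun t y => 1 / 2 * D.ret' (b + 1) t * ((B.sg S (e b)) y - (B.sg (S + t) (e b)) y))
      Tf hTf0 ?_ ?_ ?_ ?_ y hy
    · have h1 : 0 ≤ 1 / 2 * D.ret (b + 1) Tf * (B.sg (S + Tf) (e b)) y :=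
        mul_nonneg (mul_nonneg (by norm_num) (D.ret_pos _ hTf0).le)
          (B.sg_nonneg (e_nonneg b) (by linarith) y)
      simp only at hcomp
      linarith
    · intro t ht0 ht1 i hi
      have h1 : HasDerivAt (fun t => (B.sg S (w t)) i) ((B.sg S (D.op (w t))) i) t := by
        have := ((evalCLM i).comp (B.sg S)).hasFDerivAt.comp_hasDerivAt t (hw_der t)
        exact this
      have h2 : (B.sg S (D.op (w t))) i = B.act (B.sg S (w t)) i
          + 1 / 2 * D.ret' (b + 1) t * (B.sg S (e b)) i := by
        rw [D.op_cut b, map_add, map_add, map_smul, map_smul, ← hB, B.sg_comm]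
        show (B.op (B.sg S (w t))) i + (D.J b * w t (b + 1)) * (B.sg S (e b)) i
          + (D.J b * w t b) * (B.sg S (e (b + 1))) i = _
        rw [B.sg_eq_zero_left b hBb (f := e (b + 1)) (fun j hj => by
          rw [e_apply, if_neg (by omega)]) hS0 i hi, B.op_apply, hJ, hwx]
        ring
      have h3 : HasDerivAt (fun t => 1 / 2 * D.ret (b + 1) t * (B.sg (S + t) (e b)) i)
          (1 / 2 * D.ret' (b + 1) t * (B.sg (S + t) (e b)) i
            + 1 / 2 * D.ret (b + 1) t * B.act (B.sg (S + t) (e b)) i) t := by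
        have h4 : HasDerivAt (fun t => (B.sg (S + t) (e b)) i)
            (B.act (B.sg (S + t) (e b)) i) t := by
          have := (B.sg_eval_hasDerivAt (e b) i (S + t)).comp_const_add S t
          exact this
        exact ((D.ret_hasDerivAt (b + 1) t).const_mul (1 / 2)).mul h4
      convert! (h1.sub h3).hasDerivWithinAt using 1
      rw [h2]
      unfold act
      ring
    · -- boundedness
      have hc : ContinuousOn (fun t => ‖B.sg S (w t)‖) (Icc 0 Tf) := by
        intro t _
        have := (B.sg S).hasFDerivAt.comp_hasDerivAt t (hw_der t)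
        exact this.continuousAt.norm.continuousWithinAt
      obtain ⟨C1, hC1⟩ := (isCompact_Icc.image_of_continuousOn hc).bddAbove
      have hc2 : ContinuousOn (fun t => |D.ret (b + 1) t|) (Icc 0 Tf) := by
        intro t _
        exact (D.ret_hasDerivAt (b + 1) t).continuousAt.abs.continuousWithinAt
      obtain ⟨C2, hC2⟩ := (isCompact_Icc.image_of_continuousOn hc2).bddAbove
      obtain ⟨C3, hC3⟩ := B.sg_bdd (e b) (S + Tf)
      refine ⟨C1 + 1 / 2 * C2 * C3, fun t h0 h1 i _ => ?_⟩
      have b1 : |(B.sg S (w t)) i| ≤ C1 :=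
        le_trans (lp.norm_apply_le_norm (p := 2) (by norm_num) (B.sg S (w t)) i)
          (hC1 ⟨t, ⟨h0, h1⟩, rfl⟩)
      have b2 : |D.ret (b + 1) t| ≤ C2 := hC2 ⟨t, ⟨h0, h1⟩, rfl⟩
      have b3 := hC3 (S + t) (by linarith) (by linarith) i
      have b4 : |1 / 2 * D.ret (b + 1) t * (B.sg (S + t) (e b)) i| ≤ 1 / 2 * C2 * C3 := by
        rw [abs_mul, abs_mul]
        have hC2' : 0 ≤ C2 := le_trans (abs_nonneg _) b2
        apply mul_le_mul _ b3 (abs_nonneg _) (by positivity)
        rw [abs_of_nonneg (by norm_num : (0 : ℝ) ≤ 1 / 2)]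
        exact mul_le_mul_of_nonneg_left b2 (by norm_num)
      have b5 := (abs_le.mp b1).1
      have b6 := (abs_le.mp b4).2
      simp only
      linarith
    · intro t h0 h1 i hi
      rcases hcoef t h0 h1 with hle | hTf
      · have hmono : (B.sg S (e b)) i ≤ (B.sg (S + t) (e b)) i := by
          have hm : MonotoneOn (fun s => (B.sg s (e b)) i) (Ici S) := by
            apply monotoneOn_of_deriv_nonneg (convex_Ici S)
            · intro s _
              exact (B.sg_eval_hasDerivAt (e b) i s).continuousAt.continuousWithinAt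
            · intro s _
              exact (B.sg_eval_hasDerivAt (e b) i s).differentiableAt.differentiableWithinAt
            · intro s hs
              rw [interior_Ici] at hs
              rw [(B.sg_eval_hasDerivAt (e b) i s).deriv, ← B.op_apply]
              exact hS s (le_of_lt hs) i hi
          exact hm (show S ∈ Ici S from le_refl S) (show S + t ∈ Ici S from by
            show S ≤ S + t; linarith) (by linarith)
        have h5 : 0 ≤ (-(D.ret' (b + 1) t)) * ((B.sg (S + t) (e b)) i - (B.sg S (e b)) i) :=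
          mul_nonneg (by linarith) (by linarith)
        nlinarith
      · have : t = 0 := by linarith
        subst this
        simp
    · intro i hi
      have h1 : (B.sg S (w 0)) i = 1 / 2 * (B.sg S (e b)) i := by
        rw [hw0, map_add, map_smul]
        show 1 / 2 * (B.sg S (e b)) i + (B.sg S (D.op (e (b + 1)) - (1 / 2 : ℝ) • e b)) i = _
        have h9 : (B.sg S (D.op (e (b + 1)) - (1 / 2 : ℝ) • e b)) i = 0 := by
          refine B.sg_eq_zero_left b hBb (f := D.op (e (b + 1)) - (1 / 2 : ℝ) • e b) ?_ hS0 i hi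
          intro j hj
          show (D.op (e (b + 1))) j - 1 / 2 * e b j = 0
          rw [D.op_apply]
          unfold act
          simp only [e_apply, hJ]
          rcases lt_or_eq_of_le hj with h | h
          · rw [if_neg (by omega), if_neg (by omega), if_neg (by omega), if_neg (by omega)]
            ring
          · rw [if_pos (by omega), if_neg (by omega), if_neg (by omega), if_pos (by omega)]
            ring
        rw [h9]
        ring
      simp only [h1, D.ret_zero, add_zero]
      linarith
  -- step 2: nonnegativity of `w (Tf + S)` on the left half line, and afterwards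
  have step2 : ∀ r, 0 ≤ r → ∀ f : L2, (∀ y, y ≤ b → 0 ≤ (B.sg r f) y) →
      ∀ t₀, Tf ≤ t₀ → f = w t₀ → ∀ y, y ≤ b → 0 ≤ w (t₀ + r) y := by
    intro r hr f hf t₀ ht₀ hft y hy
    have hcomp := B.nonneg_of_source_left b hBb
      (fun t y => w (t₀ + t) y - (B.sg t f) y)
      (fun t y => if y = b then 1 / 2 * D.ret' (b + 1) (t₀ + t) else 0)
      r hr ?_ ?_ ?_ ?_ y hy
    · have h1 := hf y hy
      simp only at hcomp
      linarith
    · intro t h0 h1 i hi
      have e1 : HasDerivAt (fun t => w (t₀ + t) i) (D.act (w (t₀ + t)) i) t := by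
        have h2 := (evalCLM i).hasFDerivAt.comp_hasDerivAt (t₀ + t) (hw_der (t₀ + t))
        have h3 : HasDerivAt (fun t => w t i) (D.act (w (t₀ + t)) i) (t₀ + t) := by
          rw [← D.op_apply]; exact h2
        exact h3.comp_const_add t₀ t
      have e2 := B.sg_eval_hasDerivAt f i t
      convert! (e1.sub e2).hasDerivWithinAt using 1
      rw [D.act_cut b, ← hB, if_neg (show ¬ i = b + 1 by omega), hJ, hwx]
      split_ifs
      · unfold act
        ring
      · unfold act
        ring
    · have hc : ContinuousOn (fun t => ‖w (t₀ + t)‖) (Icc 0 r) := by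
        intro t _
        have := (hw_der (t₀ + t)).comp_const_add t₀ t
        exact this.continuousAt.norm.continuousWithinAt
      obtain ⟨C1, hC1⟩ := (isCompact_Icc.image_of_continuousOn hc).bddAbove
      obtain ⟨C3, hC3⟩ := B.sg_bdd f r
      refine ⟨C1 + C3, fun t h0 h1 i _ => ?_⟩
      have b1 : |w (t₀ + t) i| ≤ C1 :=
        le_trans (lp.norm_apply_le_norm (p := 2) (by norm_num) (w (t₀ + t)) i)
          (hC1 ⟨t, ⟨h0, h1⟩, rfl⟩)
      have b3 := hC3 t h0 h1 i
      have b5 := (abs_le.mp b1).1
      have b6 := (abs_le.mp b3).2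
      simp only
      linarith
    · intro t h0 h1 i _
      split_ifs
      · have := hpos (t₀ + t) (by linarith)
        linarith
      · exact le_rfl
    · intro i _
      simp [sg_zero, hft]
  have step3 : ∀ y, y ≤ b → 0 ≤ w (Tf + S) y :=
    step2 S hS0 (w Tf) step1 Tf le_rfl rfl
  refine ⟨Tf + S, by linarith, fun t ht y hy => ?_⟩
  rcases lt_or_eq_of_le hy with hlt | heq
  · have hyb : y ≤ b := by omega
    have h1 := step2 (t - (Tf + S)) (by linarith) (w (Tf + S)) ?_ (Tf + S) (by linarith) rfl y hyb
    · rw [show Tf + S + (t - (Tf + S)) = t by ring] at h1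
      exact h1
    · intro i hi
      refine B.nonneg_of_source_left b hBb (fun t y => (B.sg t (w (Tf + S))) y) (fun _ _ => 0)
        (t - (Tf + S)) (by linarith) ?_ ?_ ?_ ?_ i hi
      · intro s _ _ j _
        have := (B.sg_eval_hasDerivAt (w (Tf + S)) j s).hasDerivWithinAt
          (s := Icc 0 (t - (Tf + S)))
        simpa using this
      · obtain ⟨C, hC⟩ := B.sg_bdd (w (Tf + S)) (t - (Tf + S))
        exact ⟨C, fun s h0 h1 j _ => (abs_le.mp (hC s h0 h1 j)).1⟩
      · intros; exact le_rfl
      · intro j hj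
        simpa [sg_zero] using step3 j hj
  · rw [heq]
    exact hpos t (by linarith)

end JacData

end Pool.Agent.Lib.MP_360c0a_pr
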