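import Mathlib
import Pool.Agent.Lib.MP_360c0a_pr.Defs
import Pool.Agent.Lib.MP_360c0a_pr.FullLine

/-!
# Eventual strict monotonicity for general initial conditions
-/

namespace Pool.Agent.Lib.MP_360c0a_pr

open Set Filter Topology

namespace JacData

variable (D : JacData)

theorem eq_zero_of_ode (G : ℝ → ℤ → ℝ)
    (hder : ∀ t, 0 ≤ t → ∀ i, HasDerivWithinAt (fun s => G s i) (D.act (G t) i) (Ici 0) t)
    (hbdd : ∀ T, ∃ C, ∀ t, 0 ≤ t → t ≤ T → ∀ i, |G t i| ≤ C)
    (h0 : ∀ i, G 0 i = 0) : ∀ t, 0 ≤ t → ∀ i, G t i = 0 := by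
  intro t ht i
  obtain ⟨C, hC⟩ := hbdd t
  have h1 : 0 ≤ G t i := by
    refine D.nonneg_of_source G (fun _ _ => 0) t ht ?_ ?_ ?_ ?_ i
    · intro s hs _ j
      have := (hder s hs j).mono (show Icc 0 t ⊆ Ici 0 from fun y hy => hy.1)
      simpa using this
    · exact ⟨C, fun s h0 h1 j => (abs_le.mp (hC s h0 h1 j)).1⟩
    · intros; exact le_rfl
    · intro j; rw [h0]
  have h2 : 0 ≤ -G t i := by
    refine D.nonneg_of_source (fun s j => -G s j) (fun _ _ => 0) t ht ?_ ?_ ?_ ?_ i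
    · intro s hs _ j
      have := (hder s hs j).neg.mono (show Icc 0 t ⊆ Ici 0 from fun y hy => hy.1)
      convert! this using 1
      unfold act
      ring
    · refine ⟨C, fun s h0 h1 j => ?_⟩
      have := (abs_le.mp (hC s h0 h1 j)).2
      show -C ≤ -G s j
      linarith
    · intros; exact le_rfl
    · intro j; simp [h0]
  linarith

/-- The reflected data (for constant hopping rates). -/
noncomputable def refl : JacData where
  J := fun i => D.J (-1 - i)
  V := fun i => D.V (-i)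
  C := D.C
  J_nonneg := fun _ => D.J_nonneg _
  J_le := fun _ => D.J_le _
  V_le := fun _ => D.V_le _

theorem refl_act (f : ℤ → ℝ) (y : ℤ) : D.refl.act f (-y) = D.act (fun z => f (-z)) y := by
  unfold refl act
  simp only
  rw [show -1 - -y = y - 1 by ring, show -1 - (-y - 1) = y by ring, show - -y = y by ring,
    show -(y + 1) = -y - 1 by ring, show -(y - 1) = -y + 1 by ring]
  ring

theorem refl_sg (x : ℤ) {t : ℝ} (ht : 0 ≤ t) (y : ℤ) :
    (D.refl.sg t (e (-x))) (-y) = (D.sg t (e x)) y := by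
  have key := D.eq_zero_of_ode (fun s z => (D.refl.sg s (e (-x))) (-z) - (D.sg s (e x)) z)
    ?_ ?_ ?_ t ht y
  · simp only at key
    linarith
  · intro s _ z
    have h1 := D.refl.sg_eval_hasDerivAt (e (-x)) (-z) s
    rw [D.refl_act] at h1
    have h2 := D.sg_eval_hasDerivAt (e x) z s
    convert! (h1.sub h2).hasDerivWithinAt using 1
    unfold act
    ring
  · intro T
    obtain ⟨C1, hC1⟩ := D.refl.sg_bdd (e (-x)) T
    obtain ⟨C2, hC2⟩ := D.sg_bdd (e x) T
    refine ⟨C1 + C2, fun s h0 h1 z => ?_⟩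
    exact le_trans (abs_sub _ _) (add_le_add (hC1 s h0 h1 _) (hC2 s h0 h1 _))
  · intro z
    simp only [sg_zero]
    show e (-x) (-z) - e x z = 0
    rw [e_apply, e_apply]
    by_cases h : z = x
    · subst h; simp
    · rw [if_neg (by omega), if_neg h]; ring

theorem right_nonneg {a : ℝ} (ha : 0 < a) (hJ : ∀ y, D.J y = 1 / 2)
    (hV : ∀ y, a - 1 ≤ D.V y) (x : ℤ) :
    ∃ T, 0 ≤ T ∧ ∀ t, T ≤ t → ∀ y, x ≤ y → 0 ≤ (D.op (D.sg t (e x))) y := by
  obtain ⟨T, hT0, hT⟩ := D.refl.left_nonneg ha (fun y => hJ _) (fun y => hV _) (-x)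
  refine ⟨T, hT0, fun t ht y hy => ?_⟩
  have h := hT t ht (-y) (by omega)
  rw [D.refl.op_apply, D.refl_act] at h
  rw [D.op_apply]
  have h2 : (fun z => (D.refl.sg t (e (-x))) (-z)) = fun z => (D.sg t (e x)) z := by
    ext z
    exact D.refl_sg x (by linarith) z
  rw [h2] at h
  exact h

theorem all_nonneg {a : ℝ} (ha : 0 < a) (hJ : ∀ y, D.J y = 1 / 2)
    (hV : ∀ y, a - 1 ≤ D.V y) (x : ℤ) :
    ∃ T, 0 ≤ T ∧ ∀ t, T ≤ t → ∀ y, 0 ≤ (D.op (D.sg t (e x))) y := by
  obtain ⟨T1, hT1, h1⟩ := D.left_nonneg ha hJ hV x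
  obtain ⟨T2, hT2, h2⟩ := D.right_nonneg ha hJ hV x
  refine ⟨max T1 T2, le_max_of_le_left hT1, fun t ht y => ?_⟩
  rcases le_total y x with h | h
  · exact h1 t (le_trans (le_max_left _ _) ht) y h
  · exact h2 t (le_trans (le_max_right _ _) ht) y h

theorem pos_everywhere {U : ℝ → ℤ → ℝ} (hJ : ∀ y, D.J y = 1 / 2)
    (hU : ∀ t, 0 ≤ t → ∀ i, HasDerivAt (fun s => U s i) (D.act (U t) i) t)
    (hU0 : ∀ t, 0 ≤ t → ∀ i, 0 ≤ U t i) {x : ℤ} (hx : ∀ t, 0 < t → 0 < U t x) (y : ℤ) :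
    ∀ t, 0 < t → 0 < U t y := by
  have hr : ∀ n : ℕ, ∀ t, 0 < t → 0 < U t (x + n) := by
    intro n
    induction n with
    | zero => simpa using hx
    | succ n ih =>
      intro t ht
      have := (D.pos_spread hU hU0 ih ht).1 (by rw [hJ]; norm_num)
      rw [show x + ((n + 1 : ℕ) : ℤ) = x + n + 1 by push_cast; ring]
      exact this
  have hl : ∀ n : ℕ, ∀ t, 0 < t → 0 < U t (x - n) := by
    intro n
    induction n with
    | zero => simpa using hx
    | succ n ih =>
      intro t ht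
      have := (D.pos_spread hU hU0 ih ht).2 (by rw [hJ]; norm_num)
      rw [show x - ((n + 1 : ℕ) : ℤ) = x - n - 1 by push_cast; ring]
      exact this
  intro t ht
  rcases le_total x y with h | h
  · have := hr (y - x).toNat t ht
    rwa [show x + ((y - x).toNat : ℤ) = y by omega] at this
  · have := hl (x - y).toNat t ht
    rwa [show x - ((x - y).toNat : ℤ) = y by omega] at this

/-- There is a time after which the value at `x` of every fundamental solution is strictly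
increasing in time. -/
theorem fund_strictMono {a : ℝ} (ha : 0 < a) (hJ : ∀ y, D.J y = 1 / 2)
    (hV : ∀ y, a - 1 ≤ D.V y) (x : ℤ) :
    ∃ T, 0 ≤ T ∧ ∀ y, StrictMonoOn (fun t => (D.sg t (e y)) x) (Ici T) := by
  obtain ⟨T0, hT0, hT⟩ := D.all_nonneg ha hJ hV x
  have hex : ∃ t, 0 ≤ t ∧ 0 < D.ret' x t := by
    by_contra hcon
    push Not at hcon
    have hanti : AntitoneOn (D.ret x) (Ici 0) := by
      apply antitoneOn_of_deriv_nonpos (convex_Ici 0)
      · intro s _; exact (D.ret_hasDerivAt _ s).continuousAt.continuousWithinAt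
      · intro s _; exact (D.ret_hasDerivAt _ s).differentiableAt.differentiableWithinAt
      · intro s hs
        rw [interior_Ici] at hs
        rw [(D.ret_hasDerivAt _ s).deriv]
        exact hcon s (le_of_lt hs)
    obtain ⟨t, ht0, ht⟩ := D.ret_unbounded ha x (fun y _ => hJ y) hV 1
    have := hanti (show (0 : ℝ) ∈ Ici 0 from le_refl (0 : ℝ)) (show t ∈ Ici 0 from ht0) ht0
    rw [D.ret_zero] at this
    linarith
  obtain ⟨t1, ht1, ht1'⟩ := hex
  set T := max T0 t1 with hTdef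
  have hTT0 : T0 ≤ T := le_max_left _ _
  have hTt1 : t1 ≤ T := le_max_right _ _
  have hpos : ∀ t, T < t → ∀ y, 0 < (D.op (D.sg t (e x))) y := by
    intro t ht y
    have hU : ∀ s, 0 ≤ s → ∀ i, HasDerivAt (fun r => (D.sg r (D.op (D.sg T (e x)))) i)
        (D.act (D.sg s (D.op (D.sg T (e x)))) i) s := fun s _ i => D.sg_eval_hasDerivAt _ i s
    have hshift : ∀ s, D.sg s (D.op (D.sg T (e x))) = D.op (D.sg (s + T) (e x)) := by
      intro s
      rw [D.sg_comm, D.sg_add]
      rfl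
    have hU0 : ∀ s, 0 ≤ s → ∀ i, 0 ≤ (D.sg s (D.op (D.sg T (e x)))) i := by
      intro s hs i
      rw [hshift]
      exact hT _ (by linarith) i
    have hx : ∀ s, 0 < s → 0 < (D.sg s (D.op (D.sg T (e x)))) x := by
      intro s hs
      rw [hshift]
      exact lt_of_lt_of_le ht1' (D.ret'_mono x (by linarith : t1 ≤ s + T))
    have := D.pos_everywhere (U := fun s i => (D.sg s (D.op (D.sg T (e x)))) i) hJ hU hU0 hx y
      (t - T) (by linarith)
    simp only at this
    rw [hshift, sub_add_cancel] at this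
    exact this
  refine ⟨T, le_trans hT0 hTT0, fun y => ?_⟩
  apply strictMonoOn_of_deriv_pos (convex_Ici T)
  · intro s _
    exact (D.sg_eval_hasDerivAt (e y) x s).continuousAt.continuousWithinAt
  · intro s hs
    rw [interior_Ici] at hs
    have h1 : (fun t => (D.sg t (e y)) x) = fun t => (D.sg t (e x)) y := by
      ext t
      exact D.sg_symm_apply t y x
    rw [h1, (D.sg_eval_hasDerivAt (e x) y s).deriv, ← D.op_apply]
    exact hpos s hs y

end JacData

/-- The Jacobi data of the parabolic Anderson model. -/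
noncomputable def pamData (ξ : ℤ → ℝ) (a b : ℝ) (ha : 0 < a) (hξ : ∀ x, a ≤ ξ x ∧ ξ x ≤ b) :
    JacData where
  J := fun _ => 1 / 2
  V := fun x => ξ x - 1
  C := b + 1
  J_nonneg := fun _ => by norm_num
  J_le := fun _ => by
    have := hξ 0
    linarith
  V_le := fun x => by
    have := hξ x
    rw [abs_le]
    constructor <;> linarith

theorem pamData_act (ξ : ℤ → ℝ) (a b : ℝ) (ha : 0 < a) (hξ : ∀ x, a ≤ ξ x ∧ ξ x ≤ b)
    (f : ℤ → ℝ) (x : ℤ) : (pamData ξ a b ha hξ).act f x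
      = 1 / 2 * (f (x + 1) + f (x - 1) - 2 * f x) + ξ x * f x := by
  unfold JacData.act pamData
  ring

section General

variable {ξ : ℤ → ℝ} {a b : ℝ} (ha : 0 < a) (hξ : ∀ x, a ≤ ξ x ∧ ξ x ≤ b)

include ha hξ

theorem IsPAMSolution.hasDeriv {u₀ : ℤ → ℝ} {u : ℝ → ℤ → ℝ} (hu : IsPAMSolution ξ u₀ u) {t : ℝ}
    (ht : 0 ≤ t) (x : ℤ) : HasDerivWithinAt (fun s => u s x)
      ((pamData ξ a b ha hξ).act (u t) x) (Ici 0) t := by
  rw [pamData_act]
  exact hu.eqn t ht x

/-- Uniqueness of the solution. -/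
theorem IsPAMSolution.unique {u₀ : ℤ → ℝ} {u v : ℝ → ℤ → ℝ} (hu : IsPAMSolution ξ u₀ u)
    (hv : IsPAMSolution ξ u₀ v) {t : ℝ} (ht : 0 ≤ t) (x : ℤ) : u t x = v t x := by
  have key := (pamData ξ a b ha hξ).eq_zero_of_ode (fun s y => u s y - v s y) ?_ ?_ ?_ t ht x
  · exact sub_eq_zero.mp key
  · intro s hs y
    convert! (hu.hasDeriv ha hξ hs y).sub (hv.hasDeriv ha hξ hs y) using 1
    unfold JacData.act
    ring
  · intro T
    obtain ⟨C1, hC1⟩ := hu.bdd T
    obtain ⟨C2, hC2⟩ := hv.bdd T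
    exact ⟨C1 + C2, fun s h0 h1 y =>
      le_trans (abs_sub _ _) (add_le_add (hC1 s h0 h1 _) (hC2 s h0 h1 _))⟩
  · intro y
    simp [hu.init, hv.init]

/-- The solution started from a square summable initial condition. -/
theorem isPAMSolution_sg (f : L2) :
    IsPAMSolution ξ f (fun t x => ((pamData ξ a b ha hξ).sg t f) x) where
  init := fun x => by simp [JacData.sg_zero]
  eqn := fun t _ x => by
    rw [← pamData_act ξ a b ha hξ]
    exact ((pamData ξ a b ha hξ).sg_eval_hasDerivAt f x t).hasDerivWithinAt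
  bdd := fun T => (pamData ξ a b ha hξ).sg_bdd f T

theorem IsPAMSolution.nonneg {u₀ : ℤ → ℝ} {u : ℝ → ℤ → ℝ} (hu : IsPAMSolution ξ u₀ u)
    (h0 : ∀ x, 0 ≤ u₀ x) {t : ℝ} (ht : 0 ≤ t) (x : ℤ) : 0 ≤ u t x := by
  refine (pamData ξ a b ha hξ).nonneg_of_source u (fun _ _ => 0) t ht ?_ ?_ ?_ ?_ x
  · intro s hs _ j
    have := (hu.hasDeriv ha hξ hs j).mono (show Icc 0 t ⊆ Ici 0 from fun y hy => hy.1)
    simpa using this
  · obtain ⟨C, hC⟩ := hu.bdd t
    exact ⟨C, fun s h0 h1 j => (abs_le.mp (hC s h0 h1 j)).1⟩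
  · intros; exact le_rfl
  · intro j; rw [hu.init]; exact h0 j

omit ha hξ in
theorem IsPAMSolution.sub {u₀ v₀ : ℤ → ℝ} {u v : ℝ → ℤ → ℝ} (hu : IsPAMSolution ξ u₀ u)
    (hv : IsPAMSolution ξ v₀ v) :
    IsPAMSolution ξ (fun x => u₀ x - v₀ x) (fun t x => u t x - v t x) where
  init := fun x => by simp [hu.init, hv.init]
  eqn := fun t ht x => by
    convert! (hu.eqn t ht x).sub (hv.eqn t ht x) using 1
    ring
  bdd := fun T => by
    obtain ⟨C1, hC1⟩ := hu.bdd T
    obtain ⟨C2, hC2⟩ := hv.bdd T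
    exact ⟨C1 + C2, fun s h0 h1 y =>
      le_trans (abs_sub _ _) (add_le_add (hC1 s h0 h1 _) (hC2 s h0 h1 _))⟩

omit ha hξ in
/-- Truncation of the initial condition. -/
noncomputable def trunc (u₀ : ℤ → ℝ) (N : ℕ) : L2 :=
  ∑ y ∈ Finset.Icc (-(N : ℤ)) N, u₀ y • JacData.e y

omit ha hξ in
theorem trunc_apply (u₀ : ℤ → ℝ) (N : ℕ) (i : ℤ) :
    trunc u₀ N i = if i ∈ Finset.Icc (-(N : ℤ)) N then u₀ i else 0 := by
  unfold trunc
  rw [lp.coeFn_sum, Finset.sum_apply]
  have : ∀ y, ((u₀ y • JacData.e y : L2) : ℤ → ℝ) i = if y = i then u₀ y else 0 := by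
    intro y
    show u₀ y * JacData.e y i = _
    rw [JacData.e_apply]
    split_ifs <;> first | omega | simp
  simp_rw [this]
  rw [Finset.sum_ite_eq']

omit ha hξ in
theorem sg_trunc (D : JacData) (u₀ : ℤ → ℝ) (N : ℕ) (t : ℝ) (x : ℤ) :
    (D.sg t (trunc u₀ N)) x
      = ∑ y ∈ Finset.Icc (-(N : ℤ)) N, u₀ y * (D.sg t (JacData.e y)) x := by
  unfold trunc
  rw [map_sum, lp.coeFn_sum, Finset.sum_apply]
  refine Finset.sum_congr rfl fun y _ => ?_
  rw [map_smul]
  rfl

/-- The solution is at most the solution with truncated initial condition plus an exponentially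
small error. -/
theorem IsPAMSolution.le_trunc {u₀ : ℤ → ℝ} {u : ℝ → ℤ → ℝ} (hu : IsPAMSolution ξ u₀ u)
    {M : ℝ} (hM : 0 ≤ M) (h0 : ∀ x, u₀ x ≤ M) {t : ℝ} (ht : 0 ≤ t) (x : ℤ) (N : ℕ) :
    u t x ≤ ((pamData ξ a b ha hξ).sg t (trunc u₀ N)) x
      + M * Real.exp (-N) * (Real.exp ((Real.cosh 1 + b) * t)
        * (Real.exp x + Real.exp (-x))) := by
  set D := pamData ξ a b ha hξ with hD
  have key := D.nonneg_of_source
    (fun s y => (D.sg s (trunc u₀ N)) y
      + M * Real.exp (-N) * (Real.exp ((Real.cosh 1 + b) * s) * (Real.exp y + Real.exp (-y)))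
      - u s y)
    (fun s y => M * Real.exp (-N) * (Real.exp ((Real.cosh 1 + b) * s)
      * ((Real.exp y + Real.exp (-y)) * (b + 1 - ξ y)))) t ht ?_ ?_ ?_ ?_ x
  · simp only at key
    linarith
  · intro s hs _ y
    have h1 := D.sg_eval_hasDerivAt (trunc u₀ N) y s
    have h2 : HasDerivAt (fun s : ℝ => M * Real.exp (-N)
        * (Real.exp ((Real.cosh 1 + b) * s) * (Real.exp y + Real.exp (-y))))
        (M * Real.exp (-N) * (Real.exp ((Real.cosh 1 + b) * s) * (Real.cosh 1 + b)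
          * (Real.exp y + Real.exp (-y)))) s := by
      have h3 : HasDerivAt (fun s : ℝ => (Real.cosh 1 + b) * s) (Real.cosh 1 + b) s := by
        simpa using (hasDerivAt_id s).const_mul (Real.cosh 1 + b)
      exact (h3.exp.mul_const _).const_mul _
    have h3 := (hu.hasDeriv ha hξ hs y).mono (show Icc 0 t ⊆ Ici 0 from fun y hy => hy.1)
    convert! (h1.hasDerivWithinAt.add h2.hasDerivWithinAt).sub h3 using 1
    rw [← hD]
    have e1 : Real.exp ((y + 1 : ℤ) : ℝ) = Real.exp y * Real.exp 1 := by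
      rw [← Real.exp_add]; push_cast; rfl
    have e2 : Real.exp (-((y + 1 : ℤ) : ℝ)) = Real.exp (-y) * Real.exp (-1) := by
      rw [← Real.exp_add]; push_cast; congr 1; ring
    have e3 : Real.exp ((y - 1 : ℤ) : ℝ) = Real.exp y * Real.exp (-1) := by
      rw [← Real.exp_add]; push_cast; congr 1
    have e4 : Real.exp (-((y - 1 : ℤ) : ℝ)) = Real.exp (-y) * Real.exp 1 := by
      rw [← Real.exp_add]; push_cast; congr 1; ring
    rw [hD, pamData_act, pamData_act, pamData_act, ← hD]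
    simp only
    rw [e1, e2, e3, e4, Real.cosh_eq]
    ring
  · obtain ⟨C1, hC1⟩ := D.sg_bdd (trunc u₀ N) t
    obtain ⟨C2, hC2⟩ := hu.bdd t
    refine ⟨C1 + C2, fun s h0 h1 y => ?_⟩
    have b1 := (abs_le.mp (hC1 s h0 h1 y)).1
    have b2 := (abs_le.mp (hC2 s h0 h1 y)).2
    have b3 : 0 ≤ M * Real.exp (-N) * (Real.exp ((Real.cosh 1 + b) * s)
      * (Real.exp y + Real.exp (-y))) := by positivity
    simp only
    linarith
  · intro s _ _ y
    have := (hξ y).2
    have h5 : 0 ≤ b + 1 - ξ y := by linarith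
    positivity
  · intro y
    simp only [JacData.sg_zero, mul_zero, Real.exp_zero, one_mul]
    rw [hu.init]
    show 0 ≤ trunc u₀ N y + _ - _
    rw [trunc_apply]
    have b3 : 0 ≤ M * Real.exp (-N) * (Real.exp y + Real.exp (-y)) := by positivity
    by_cases hy : y ∈ Finset.Icc (-(N : ℤ)) N
    · rw [if_pos hy]
      linarith
    · rw [if_neg hy]
      have h2 : M ≤ M * Real.exp (-N) * (Real.exp y + Real.exp (-y)) := by
        rw [Finset.mem_Icc] at hy
        have h3 : (1 : ℝ) ≤ Real.exp (-N) * (Real.exp y + Real.exp (-y)) := by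
          rw [mul_add, ← Real.exp_add, ← Real.exp_add]
          by_cases h4 : (N : ℤ) ≤ y
          · have h5 : (N : ℝ) ≤ y := by exact_mod_cast h4
            have h6 : 1 ≤ Real.exp (-N + y) := Real.one_le_exp (by linarith)
            have h7 := Real.exp_pos (-(N : ℝ) + -y)
            linarith
          · have h4' : (N : ℤ) ≤ -y := by
              by_contra hc
              exact hy ⟨by omega, by omega⟩
            have h5 : (N : ℝ) ≤ -y := by exact_mod_cast h4'
            have h6 : 1 ≤ Real.exp (-(N : ℝ) + -y) := Real.one_le_exp (by linarith)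
            have h7 := Real.exp_pos (-(N : ℝ) + y)
            linarith
        calc M = M * 1 := by ring
          _ ≤ M * (Real.exp (-N) * (Real.exp y + Real.exp (-y))) :=
            mul_le_mul_of_nonneg_left h3 hM
          _ = _ := by ring
      have := h0 y
      linarith

theorem IsPAMSolution.ge_trunc {u₀ : ℤ → ℝ} {u : ℝ → ℤ → ℝ} (hu : IsPAMSolution ξ u₀ u)
    (h0 : ∀ x, 0 ≤ u₀ x) {t : ℝ} (ht : 0 ≤ t) (x : ℤ) (N : ℕ) :
    ((pamData ξ a b ha hξ).sg t (trunc u₀ N)) x ≤ u t x := by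
  have h1 := (hu.sub (isPAMSolution_sg ha hξ (trunc u₀ N))).nonneg ha hξ (fun y => by
    rw [trunc_apply]
    split_ifs
    · simp
    · simpa using h0 y) ht x
  linarith

/-- Main deterministic theorem. -/
theorem exists_time_strictMonoOn (x : ℤ) :
    ∃ T, 0 ≤ T ∧ ∀ (u₀ : ℤ → ℝ) (u : ℝ → ℤ → ℝ), (∀ y, 0 ≤ u₀ y) → (∃ y, 0 < u₀ y) →
      IsPAMSolution ξ u₀ u → StrictMonoOn (fun t => u t x) (Ici T) := by
  set D := pamData ξ a b ha hξ with hD
  obtain ⟨T, hT0, hT⟩ := D.fund_strictMono ha (fun y => rfl)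
    (fun y => by show a - 1 ≤ ξ y - 1; linarith [(hξ y).1]) x
  -- weak monotonicity
  have hmono : ∀ (u₀ : ℤ → ℝ) (u : ℝ → ℤ → ℝ), (∀ y, 0 ≤ u₀ y) →
      IsPAMSolution ξ u₀ u → MonotoneOn (fun t => u t x) (Ici T) := by
    intro u₀ u h0 hu s hs t ht hst
    have hs0 : 0 ≤ s := le_trans hT0 hs
    have ht0 : 0 ≤ t := le_trans hT0 ht
    obtain ⟨M, hM⟩ := hu.bdd 0
    have hM' : ∀ y, u₀ y ≤ M := fun y => by
      have := hM 0 le_rfl le_rfl y
      rw [hu.init] at this
      exact (abs_le.mp this).2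
    have hM0 : 0 ≤ M := le_trans (h0 0) (hM' 0)
    have hN : ∀ N : ℕ, u s x ≤ u t x + M * Real.exp (-N) *
        (Real.exp ((Real.cosh 1 + b) * s) * (Real.exp x + Real.exp (-x))) := by
      intro N
      have h1 := hu.le_trunc ha hξ hM0 hM' hs0 x N
      have h2 := hu.ge_trunc ha hξ h0 ht0 x N
      have h3 : (D.sg s (trunc u₀ N)) x ≤ (D.sg t (trunc u₀ N)) x := by
        rw [sg_trunc, sg_trunc]
        apply Finset.sum_le_sum
        intro y _
        exact mul_le_mul_of_nonneg_left ((hT y).monotoneOn hs ht hst) (h0 y)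
      linarith
    have hlim : Tendsto (fun N : ℕ => u t x + M * Real.exp (-N) *
        (Real.exp ((Real.cosh 1 + b) * s) * (Real.exp x + Real.exp (-x)))) atTop
        (𝓝 (u t x + M * 0 * (Real.exp ((Real.cosh 1 + b) * s)
          * (Real.exp x + Real.exp (-x))))) := by
      apply Tendsto.const_add
      apply Tendsto.mul_const
      apply Tendsto.const_mul
      exact Real.tendsto_exp_neg_atTop_nhds_zero.comp tendsto_natCast_atTop_atTop
    have := ge_of_tendsto' hlim hN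
    simpa using this
  refine ⟨T, hT0, fun u₀ u h0 hpos hu => ?_⟩
  obtain ⟨y₀, hy₀⟩ := hpos
  have hu' := hu.sub (isPAMSolution_sg ha hξ (u₀ y₀ • JacData.e y₀))
  have h1 := hmono _ _ (fun y => by
    show 0 ≤ u₀ y - u₀ y₀ * JacData.e y₀ y
    rw [JacData.e_apply]
    split_ifs with h
    · rw [h]; simp
    · simpa using h0 y) hu'
  intro s hs t ht hst
  have h2 := h1 hs ht hst.le
  have h3 := hT y₀ hs ht hst
  simp only [map_smul] at h2 h3 ⊢
  have h4 : ∀ r, ((u₀ y₀ • D.sg r (JacData.e y₀) : L2) : ℤ → ℝ) x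
      = u₀ y₀ * (D.sg r (JacData.e y₀)) x := fun r => rfl
  rw [← hD, h4, h4] at h2
  have h5 := mul_lt_mul_of_pos_left h3 hy₀
  linarith

end General

end Pool.Agent.Lib.MP_360c0a_pr
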